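import Pool.Agent.TH652.Dual6

/-!
# Elementary properties of flag homology spheres
-/

set_option autoImplicit false
set_option linter.unusedSectionVars false

namespace Pool.Agent.E8helper58.FV

open Module Pool.Agent.W907.SG Pool.Agent.W907.SM Pool.Agent.TH652.Dual

variable {V : Type} [Fintype V] [LinearOrder V] {G : SimpleGraph V} {n : ℕ} {S : Finset V}

theorem clq_insert (hcl : G.IsClique (S : Set V)) {v : V} (hv : v ∈ lk G S) :
    G.IsClique ((insert v S : Finset V) : Set V) := by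
  rw [Finset.coe_insert]
  exact hcl.insert fun u hu _ => hv u hu

theorem lk_insert_iff {v x : V} : x ∈ lk G (insert v S) ↔ G.Adj x v ∧ x ∈ lk G S := by
  constructor
  · intro h
    exact ⟨h v (Finset.mem_insert_self _ _), fun u hu => h u (Finset.mem_insert_of_mem hu)⟩
  · rintro ⟨h1, h2⟩ u hu
    rcases Finset.mem_insert.1 hu with rfl | hu
    · exact h1
    · exact h2 u hu

theorem notMem_of_lk {v : V} (hv : v ∈ lk G S) : v ∉ S := fun h => G.irrefl (hv v h)

theorem top_exists (hS : Sph n G) (hcl : G.IsClique (S : Set V)) {d : ℕ} (hd : d + S.card = n) :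
    ∃ z ∈ ZZ G (triv V) (lk G S) ∅ d, z ≠ 0 ∧ ∃ T : Finset V, z T ≠ 0 ∧ G.IsClique (T : Set V) ∧
      (T : Set V) ⊆ lk G S ∧ T.card = d := by
  have h1 := top_dim hS hcl hd
  have h2 : ZZ G (triv V) (lk G S) ∅ d ≠ ⊥ := by
    intro h
    rw [h, finrank_bot] at h1
    omega
  obtain ⟨z, hz, hz0⟩ := (Submodule.ne_bot_iff _).1 h2
  refine ⟨z, hz, hz0, ?_⟩
  obtain ⟨T, hT⟩ : ∃ T, z T ≠ 0 := by
    by_contra h
    push Not at h
    exact hz0 (funext h)
  have hzK := hz.1
  rw [SetLike.mem_coe, mem_KK_triv] at hzK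
  refine ⟨T, hT, ?_⟩
  by_contra h
  exact hT (hzK T h)

/-- links are not cones -/
theorem no_cone (hS : Sph n G) (hcl : G.IsClique (S : Set V)) {v : V} (hv : v ∈ lk G S) :
    ∃ u ∈ lk G S, u ≠ v ∧ ¬ G.Adj v u := by
  classical
  by_contra hno
  push Not at hno
  obtain ⟨d, hd⟩ := Nat.exists_eq_add_of_le' (no_big hS hcl)
  obtain ⟨z, hz, hz0, T, hzT, hTc, hTl, hTd⟩ := top_exists hS hcl hd.symm
  have hzK := hz.1
  rw [SetLike.mem_coe, mem_KK_triv] at hzK
  have hin : ∀ T' : Finset V, z T' ≠ 0 → v ∈ T' := by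
    intro T' hT'
    by_contra hvT
    have h3 : G.IsClique (T' : Set V) ∧ (T' : Set V) ⊆ lk G S ∧ T'.card = d := by
      by_contra h
      exact hT' (hzK T' h)
    have h4 : G.IsClique ((insert v T' : Finset V) : Set V) := by
      rw [Finset.coe_insert]
      exact h3.1.insert fun u hu hne => hno u (h3.2.1 hu) hne.symm
    have h5 : ((insert v T' : Finset V) : Set V) ⊆ lk G S := by
      rw [Finset.coe_insert]
      exact Set.insert_subset hv h3.2.1
    have h6 := (lk_iff hcl (insert v T')).1 ⟨h4, h5⟩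
    have h7 := no_big hS h6.2
    rw [Finset.card_union_of_disjoint h6.1, Finset.card_insert_of_notMem hvT] at h7
    omega
  have hvT := hin T hzT
  have h8 := congrFun (show bd ℝ z = 0 from hz.2) (T.erase v)
  rw [bd_apply, Finset.sum_eq_single v] at h8
  · rw [Finset.insert_erase hvT] at h8
    rcases sg_eq_or v (T.erase v) with h9 | h9 <;> rw [h9] at h8 <;> simp at h8 <;> exact hzT h8
  · intro u hu huv
    by_contra h
    have h9 : z (insert u (T.erase v)) ≠ 0 := fun h0 => h (by rw [h0, smul_zero])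
    have h10 := hin _ h9
    rw [Finset.mem_insert] at h10
    rcases h10 with e | e
    · exact huv e.symm
    · exact Finset.notMem_erase v T e
  · intro h
    exact absurd (Finset.mem_compl.2 (Finset.notMem_erase v T)) h

/-- a clique in the link of `v` has a common neighbour which is not a neighbour of `v` -/
theorem star (hS : Sph n G) (hcl : G.IsClique (S : Set V)) {v : V} (hv : v ∈ lk G S) {T : Finset V}
    (hT : G.IsClique (T : Set V)) (hTs : (T : Set V) ⊆ lk G (insert v S)) :
    ∃ w ∈ lk G S, w ≠ v ∧ ¬ G.Adj v w ∧ ∀ t ∈ T, G.Adj w t := by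
  classical
  have h1 : (T : Set V) ⊆ lk G S := fun x hx => (lk_insert_iff.1 (hTs hx)).2
  have h2 := ((lk_iff hcl T).1 ⟨hT, h1⟩).2
  have h3 : v ∈ lk G (S ∪ T) := by
    intro u hu
    rcases Finset.mem_union.1 hu with h | h
    · exact hv u h
    · exact (lk_insert_iff.1 (hTs h)).1.symm
  obtain ⟨w, hw, hwv, hn⟩ := no_cone hS h2 h3
  exact ⟨w, fun u hu => hw u (Finset.mem_union_left _ hu), hwv, hn,
    fun t ht => hw t (Finset.mem_union_right _ ht)⟩

/-- a homology sphere of dimension `d - 1` has at least `2 d` vertices -/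
theorem size (hS : Sph n G) : ∀ (d : ℕ) (S : Finset V), G.IsClique (S : Set V) → d + S.card = n →
    2 * d ≤ (lk G S).ncard := by
  intro d
  induction d with
  | zero => intro S _ _; simp
  | succ d ih =>
    intro S hcl hd
    obtain ⟨z, hz, hz0, T, hzT, hTc, hTl, hTd⟩ := top_exists hS hcl hd
    obtain ⟨v, hv⟩ : T.Nonempty := Finset.card_pos.1 (by omega)
    have hvl : v ∈ lk G S := hTl hv
    obtain ⟨u, hu, huv, hn⟩ := no_cone hS hcl hvl
    have h1 := ih (insert v S) (clq_insert hcl hvl)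
      (by rw [Finset.card_insert_of_notMem (notMem_of_lk hvl)]; omega)
    have h2 : insert v (insert u (lk G (insert v S))) ⊆ lk G S :=
      Set.insert_subset hvl (Set.insert_subset hu fun x hx => (lk_insert_iff.1 hx).2)
    have h3 := Set.ncard_le_ncard h2 (Set.toFinite _)
    rw [Set.ncard_insert_of_notMem, Set.ncard_insert_of_notMem] at h3
    · omega
    · intro h
      exact hn (lk_insert_iff.1 h).1.symm
    · rintro (h | h)
      · exact huv h.symm
      · exact G.irrefl (lk_insert_iff.1 h).1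

/-- a homology 0-sphere has no three vertices -/
theorem no_three (hS : Sph n G) (hcl : G.IsClique (S : Set V)) (hd : 1 + S.card = n) {a b c : V}
    (ha : a ∈ lk G S) (hb : b ∈ lk G S) (hc : c ∈ lk G S) (hab : a ≠ b) (hac : a ≠ c) (hbc : b ≠ c) :
    False := by
  have h0 : dv a b ≠ 0 := by
    intro h
    have h1 := congrFun h {b}
    unfold dv at h1
    rw [if_pos rfl] at h1
    exact one_ne_zero h1
  obtain ⟨r, hr⟩ := top_span hS hcl hd (dv_mem hab ha hb) h0 (dv_mem hac ha hc)
  have h1 := congrFun hr {c}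
  rw [Pi.smul_apply] at h1
  unfold dv at h1
  rw [if_pos rfl, if_neg (fun e => hbc (Finset.singleton_injective e).symm),
    if_neg (fun e => hac (Finset.singleton_injective e).symm), smul_zero] at h1
  exact one_ne_zero h1

theorem ZZ_mono {A B : Set V} (hAB : A ⊆ B) {d : ℕ} {z : Finset V → ℝ} (hz : z ∈ ZZ G (triv V) A ∅ d) :
    z ∈ ZZ G (triv V) B ∅ d := by
  refine ⟨?_, hz.2⟩
  have h := hz.1
  rw [SetLike.mem_coe, mem_KK_triv] at h ⊢
  exact fun T hT => h T fun h' => hT ⟨h'.1, h'.2.1.trans hAB, h'.2.2⟩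

/-- if a vertex `v` of a homology sphere has exactly two non-neighbours `w`, `w'`, then these are adjacent -/
theorem adj_two (hS : Sph n G) (hcl : G.IsClique (S : Set V)) {v w w' : V} (hv : v ∈ lk G S)
    (hw : w ∈ lk G S) (hw' : w' ∈ lk G S) (h1 : w ≠ v) (h2 : w' ≠ v) (h3 : w ≠ w') (h4 : ¬ G.Adj v w)
    (h5 : ¬ G.Adj v w') (h6 : ∀ x ∈ lk G S, x ≠ v → ¬ G.Adj v x → x = w ∨ x = w') : G.Adj w w' := by
  classical
  by_contra hn
  have hsub : ∀ a b : V, (∀ x ∈ lk G S, x ≠ v → ¬ G.Adj v x → x = a ∨ x = b) → ¬ G.Adj v a →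
      ¬ G.Adj a b → lk G (insert a S) ⊆ lk G (insert v S) := by
    intro a b hab ha hnab x hx
    rw [lk_insert_iff] at hx ⊢
    refine ⟨?_, hx.2⟩
    by_contra hxv
    have hxv' : x ≠ v := by
      rintro rfl
      exact ha hx.1
    rcases hab x hx.2 hxv' (fun h => hxv h.symm) with rfl | rfl
    · exact G.irrefl hx.1
    · exact hnab hx.1.symm
  have hs1 := hsub w w' h6 h4 hn
  have hs2 := hsub w' w (fun x hx h h' => (h6 x hx h h').symm) h5 (fun h => hn h.symm)
  have hcard : S.card + 1 ≤ n := by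
    have h := no_big hS (clq_insert hcl hv)
    rwa [Finset.card_insert_of_notMem (notMem_of_lk hv)] at h
  obtain ⟨d, hd⟩ := Nat.exists_eq_add_of_le' hcard
  have ev : ∀ y ∈ lk G S, d + (insert y S).card = n := by
    intro y hy
    rw [Finset.card_insert_of_notMem (notMem_of_lk hy)]
    omega
  obtain ⟨z, hz, hz0, T, hzT, hTc, hTl, hTd⟩ := top_exists hS (clq_insert hcl hv) (ev v hv)
  have key : ∀ y ∈ lk G S, lk G (insert y S) ⊆ lk G (insert v S) → y ∈ lk G (S ∪ T) := by
    intro y hy hs u hu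
    obtain ⟨c, hc, hc0, -⟩ := top_exists hS (clq_insert hcl hy) (ev y hy)
    obtain ⟨r, hr⟩ := top_span hS (clq_insert hcl hv) (ev v hv) hz hz0 (ZZ_mono hs hc)
    have hr0 : r ≠ 0 := by
      rintro rfl
      rw [zero_smul] at hr
      exact hc0 hr
    have hcT : c T ≠ 0 := by
      rw [hr, Pi.smul_apply, smul_eq_mul]
      exact mul_ne_zero hr0 hzT
    have hcK := hc.1
    rw [SetLike.mem_coe, mem_KK_triv] at hcK
    have h3 : (T : Set V) ⊆ lk G (insert y S) := by
      by_contra h
      exact hcT (hcK T fun h' => h h'.2.1)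
    rcases Finset.mem_union.1 hu with h | h
    · exact hy u h
    · exact (lk_insert_iff.1 (h3 h)).1.symm
  have hTS : (T : Set V) ⊆ lk G S := fun x hx => (lk_insert_iff.1 (hTl hx)).2
  have hcl2 := (lk_iff hcl T).1 ⟨hTc, hTS⟩
  exact no_three hS hcl2.2 (by rw [Finset.card_union_of_disjoint hcl2.1]; omega)
    (key v hv subset_rfl) (key w hw hs1) (key w' hw' hs2) h1.symm h2.symm h3

end Pool.Agent.E8helper58.FV
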