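import Pool.Agent.E8helper58.FV.Good
import Pool.Agent.W497.FS.Thms

/-!
# Homology spheres with `3 n - c` vertices
-/

set_option autoImplicit false
set_option linter.unusedSectionVars false

namespace Pool.Agent.E8helper58.FV

open Module Pool.Agent.W907.SG Pool.Agent.W907.SM Pool.Agent.TH652.Dual
open Pool.Agent.W497.FS (NP Prm comps lkF mem_lkF SConn mem_cl)

variable {V : Type} [Fintype V] [LinearOrder V] {G : SimpleGraph V} {n : ℕ}

theorem mem_W {S : Finset V} {x : V} : x ∈ lkF G Finset.univ S ↔ x ∈ lk G S := by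
  rw [mem_lkF]
  constructor
  · rintro ⟨-, h⟩ u hu
    exact (h u hu).symm
  · intro h
    exact ⟨Finset.mem_univ _, fun u hu => (h u hu).symm⟩

theorem coe_W {S : Finset V} : ((lkF G Finset.univ S : Finset V) : Set V) = lk G S := by
  ext x
  exact mem_W

/-- links are connected -/
theorem sconn (hS : Sph n G) {S : Finset V} (hcl : G.IsClique (S : Set V)) {d : ℕ}
    (hd : (d + 2) + S.card = n) : SConn G (lkF G Finset.univ S) := by
  classical
  intro A hA hAne hAne'
  by_contra hno
  push Not at hno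
  obtain ⟨z, hz, hz0, -⟩ := top_exists hS hcl (d := (d + 1) + 1) hd
  have h1 : bd ℝ (rs (A : Set V) z) ∈ ZZ G (triv V) (∅ : Set V) ∅ (d + 1) := by
    refine bd_rs hz ?_
    intro x hx t ht hxt htA
    exact absurd hxt (hno x hx t (mem_W.2 ht) htA)
  have h2 : bd ℝ (rs (A : Set V) z) = 0 := by
    have h3 := h1.1
    rw [SetLike.mem_coe, mem_KK_triv] at h3
    funext T
    refine h3 T ?_
    rintro ⟨-, h4, h5⟩
    rw [Set.subset_empty_iff, Finset.coe_eq_empty] at h4
    rw [h4] at h5
    simp at h5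
  obtain ⟨t, ht⟩ := top_span hS hcl (d := (d + 1) + 1) hd hz hz0
    (⟨rs_mem hz.1, h2⟩ : rs (A : Set V) z ∈ ZZ G (triv V) (lk G S) ∅ ((d + 1) + 1))
  obtain ⟨a, ha⟩ := hAne
  obtain ⟨b, hb, hbA⟩ : ∃ b ∈ lkF G Finset.univ S, b ∉ A := by
    by_contra h
    push Not at h
    exact hAne' (Finset.Subset.antisymm hA h)
  obtain ⟨Ta, haT, hzTa, -, -⟩ := supp_all hS hcl (d := (d + 1) + 1) hd hz hz0 (mem_W.1 (hA ha))
  obtain ⟨Tb, hbT, hzTb, hTbc, -⟩ := supp_all hS hcl (d := (d + 1) + 1) hd hz hz0 (mem_W.1 hb)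
  have e1 := congrFun ht Ta
  rw [rs_pos haT (Finset.mem_coe.2 ha), Pi.smul_apply, smul_eq_mul] at e1
  have e2 := congrFun ht Tb
  rw [rs_neg, Pi.smul_apply, smul_eq_mul] at e2
  · rcases mul_eq_zero.1 e2.symm with h | h
    · rw [h, zero_mul] at e1
      exact hzTa e1
    · exact hzTb h
  · intro x hx hxA
    have hxA' : x ∈ A := hxA
    by_cases e : x = b
    · exact hbA (e ▸ hxA')
    · exact hno x hxA' b hb hbA (hTbc (Finset.mem_coe.2 hx) (Finset.mem_coe.2 hbT) e)

/-- homology spheres are normal pseudomanifolds -/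
theorem np_of_sph (hS : Sph n G) : ∀ (d : ℕ) (S : Finset V), G.IsClique (S : Set V) → d + S.card = n →
    NP G d (lkF G Finset.univ S) := by
  classical
  have hemp : ∀ S : Finset V, G.IsClique (S : Set V) → S.card = n → ∀ x, x ∉ lk G S := by
    intro S hcl hd x hx
    have h1 := no_big hS (clq_insert hcl hx)
    rw [Finset.card_insert_of_notMem (notMem_of_lk hx)] at h1
    omega
  intro d
  induction d using Nat.strong_induction_on with
  | _ d ih =>
  intro S hcl hd
  match d, ih, hd with
  | 0, _, hd =>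
    show lkF G Finset.univ S = ∅
    rw [Finset.eq_empty_iff_forall_notMem]
    intro x hx
    exact hemp S hcl (by omega) x (mem_W.1 hx)
  | 1, _, hd =>
    show (lkF G Finset.univ S).card = 2 ∧ ∀ x ∈ lkF G Finset.univ S, ∀ y ∈ lkF G Finset.univ S, ¬ G.Adj x y
    refine ⟨?_, ?_⟩
    · have h1 := size hS 1 S hcl hd
      rw [← coe_W, Set.ncard_coe_finset] at h1
      by_contra h2
      obtain ⟨a, b, c, ha, hb, hc, hab, hac, hbc⟩ := Finset.two_lt_card_iff.1
        (show 2 < (lkF G Finset.univ S).card by omega)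
      exact no_three hS hcl hd (mem_W.1 ha) (mem_W.1 hb) (mem_W.1 hc) hab hac hbc
    · intro x hx y hy hxy
      have hx' := mem_W.1 hx
      have hy' : y ∈ lk G (insert x S) := lk_insert_iff.2 ⟨hxy.symm, mem_W.1 hy⟩
      refine hemp (insert x S) (clq_insert hcl hx') ?_ y hy'
      rw [Finset.card_insert_of_notMem (notMem_of_lk hx')]
      omega
  | d + 2, ih, hd =>
    show (lkF G Finset.univ S).Nonempty ∧ SConn G (lkF G Finset.univ S) ∧
      ∀ v ∈ lkF G Finset.univ S, NP G (d + 1) (Pool.Agent.W497.FS.lk G (lkF G Finset.univ S) v)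
    refine ⟨?_, sconn hS hcl hd, fun v hv => ?_⟩
    · have h1 := size hS (d + 2) S hcl hd
      rw [← coe_W, Set.ncard_coe_finset] at h1
      exact Finset.card_pos.1 (by omega)
    · have hv' := mem_W.1 hv
      have h1 := ih (d + 1) (by omega) (insert v S) (clq_insert hcl hv') (by
        rw [Finset.card_insert_of_notMem (notMem_of_lk hv')]; omega)
      have e : Pool.Agent.W497.FS.lk G (lkF G Finset.univ S) v = lkF G Finset.univ (insert v S) := by
        ext x
        rw [Pool.Agent.W497.FS.mem_lk, mem_W, mem_W, lk_insert_iff]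
        constructor
        · rintro ⟨h1, h2⟩
          exact ⟨h2.symm, h1⟩
        · rintro ⟨h1, h2⟩
          exact ⟨h2, h1.symm⟩
      rw [e]
      exact h1

/-- the number of vertices and of join factors of a link -/
theorem defect_link (hS : Sph n G) {S : Finset V} (hcl : G.IsClique (S : Set V)) {d : ℕ} (hd : d + S.card = n) :
    NP G d (lkF G Finset.univ S) ∧
      (lkF G Finset.univ S).card + (comps G (lkF G Finset.univ S)).card + 3 * S.card ≤
        Fintype.card V + (comps G Finset.univ).card := by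
  classical
  have hW0 : lkF G Finset.univ (∅ : Finset V) = Finset.univ := by
    ext x
    simp [mem_lkF]
  have h0 := np_of_sph hS n ∅ (by simp) (by simp)
  rw [hW0] at h0
  have hScl : S ∈ Pool.Agent.W497.FS.cl G Finset.univ :=
    mem_cl.2 ⟨Finset.subset_univ _, fun x hx y hy hxy => hcl hx hy hxy⟩
  obtain ⟨e, he, hNP, hdef, -⟩ := h0.lkF hScl
  obtain rfl : e = d := by omega
  exact ⟨hNP, hdef⟩

/-- the minimal number of vertices -/
theorem forest_of_card (hS : Sph n G) (hN : Fintype.card V + (comps G Finset.univ).card ≤ 3 * n) :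
    Forest n G := by
  classical
  intro S k hcl hk
  right
  obtain ⟨hNP, hdef⟩ := defect_link hS hcl (d := 2 * k + 1 + 2) (by omega)
  by_cases hp : Prm G (lkF G Finset.univ S)
  · right
    rw [Pool.Agent.W497.FS.comps_prm hp, Finset.card_singleton] at hdef
    obtain ⟨v, hv, -, hv2⟩ := Pool.Agent.W497.FS.exists_small (k := 0) hNP hp (by omega)
    refine ⟨v, mem_W.1 hv, SimpleGraph.IsAcyclic.of_card_le_two ?_⟩
    have e : NN G S v = ((Pool.Agent.W497.FS.nn G (lkF G Finset.univ S) v : Finset V) : Set V) := by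
      ext x
      rw [Finset.mem_coe, Pool.Agent.W497.FS.mem_nn, mem_W]
      exact Iff.rfl
    show ENat.card ↥(NN G S v) ≤ 2
    rw [e]
    simp only [Finset.coe_sort_coe, ENat.card_eq_coe_fintype_card, Fintype.card_coe]
    exact_mod_cast hv2
  · left
    obtain ⟨A, B, hA, hB, hAB, hW⟩ := Pool.Agent.W497.FS.split_of_not_prm
      hNP.nonempty hp
    refine ⟨A, B, hA, hB, ?_, fun a ha b hb => hAB a ha b hb⟩
    rw [← coe_W, ← hW, Finset.coe_union]

end Pool.Agent.E8helper58.FV
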