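import Pool.Agent.E8helper58.FV.Main
import Pool.Agent.TH652.Dual7

/-!
# Vanishing of the `ℓ²`-homology for flag homology spheres with few vertices
-/

set_option autoImplicit false

namespace Pool.Agent.E8helper58.FV

open Pool.Agent.W907.SG Pool.Agent.W907.SM Pool.Agent.TH652.Above

variable {V : Type} [Fintype V] [LinearOrder V] {G : SimpleGraph V} {n : ℕ}

theorem lk_empty : lk G ∅ = Set.univ := by
  ext x
  simp [lk]

theorem ncard_lk_empty : (lk G ∅).ncard = Fintype.card V := by
  rw [lk_empty, Set.ncard_univ, Nat.card_eq_fintype_card]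

/-- vanishing above the degree `j` for all full subcomplexes -/
theorem few_full (hS : HSph n G) {j : ℕ} (h : Few n G j ∅) (A : Set V) (i : ℕ) (hi : j < i) :
    LV (G.induce A) i := by
  have h1 := few_above (n := n) hS j ∅ h (by simp)
  rw [lk_empty] at h1
  exact h1 A (Set.subset_univ _) i (by omega)

/-- vanishing above the degree `j` and below the degree `n - j` -/
theorem few_range (hS : HSph n G) {j : ℕ} (h : Few n G j ∅) (i : ℕ) (hi : j < i ∨ i + j < n) :
    L2Van G i := by
  have h1 : ∀ i, j < i → L2Van G i := fun i hi => (lv_univ G i).1 (few_full hS h Set.univ i hi) _ _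
  rcases hi with hi | hi
  · exact h1 i hi
  · exact Pool.Agent.TH652.Dual.l2_duality (n := n) hS (i := i) (j := n - i) (by omega) (h1 (n - i) (by omega))

/-- few vertices -/
theorem few_of_card {j : ℕ} (h : Fintype.card V ≤ n + 3 * j + 2 ∨ Fintype.card V ≤ 2 * n + j) :
    Few n G j ∅ := by
  cases j with
  | zero =>
    show (lk G ∅).ncard + (∅ : Finset V).card ≤ n + 2 ∨ (lk G ∅).ncard + 2 * (∅ : Finset V).card ≤ 2 * n
    rw [ncard_lk_empty, Finset.card_empty]
    omega
  | succ j =>
    show (lk G ∅).ncard + (∅ : Finset V).card ≤ n + 3 * (j + 1) + 2 ∨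
      (lk G ∅).ncard + 2 * (∅ : Finset V).card ≤ 2 * n + (j + 1) ∨ _
    rw [ncard_lk_empty, Finset.card_empty]
    omega

/-- few vertices in the links of sufficiently many vertices -/
theorem few_of_deg {j : ℕ} (h : ∀ T : Finset V, G.IsClique (T : Set V) → T.card = j + 2 →
    ∃ v ∈ T, (G.neighborSet v).ncard + 1 ≤ n + 3 * j + 2 ∨ (G.neighborSet v).ncard + 2 ≤ 2 * n + j) :
    Few n G (j + 1) ∅ := by
  refine Or.inr (Or.inr fun T hT _ hc => ?_)
  obtain ⟨v, hv, h1⟩ := h T hT hc
  refine ⟨v, hv, ?_⟩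
  have e : lk G (insert v ∅) = G.neighborSet v := by
    ext x
    simp [lk, SimpleGraph.adj_comm]
  have e1 : (insert v (∅ : Finset V)).card = 1 := by simp
  cases j with
  | zero =>
    show (lk G (insert v ∅)).ncard + (insert v (∅ : Finset V)).card ≤ n + 2 ∨
      (lk G (insert v ∅)).ncard + 2 * (insert v (∅ : Finset V)).card ≤ 2 * n
    rw [e, e1]
    omega
  | succ j =>
    show (lk G (insert v ∅)).ncard + (insert v (∅ : Finset V)).card ≤ n + 3 * (j + 1) + 2 ∨
      (lk G (insert v ∅)).ncard + 2 * (insert v (∅ : Finset V)).card ≤ 2 * n + (j + 1) ∨ _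
    rw [e, e1]
    omega

/-- the Singer conjecture -/
theorem few_singer (hS : HSph n G) (h : Few n G (n / 2) ∅) (i : ℕ) (hi : 2 * i ≠ n) : L2Van G i :=
  few_range hS h i (by omega)

end Pool.Agent.E8helper58.FV
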