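import Pool.Agent.E8helper58.FV.Def

/-!
# The class of links
-/

set_option autoImplicit false

namespace Pool.Agent.E8helper58.FV

open Pool.Agent.W907.SM

/-- `Rule n G S` says that the link of the simplex `S` in the flag complex of `G` (its vertex set is `lk G S`, its
rank is `n - |S|` if the flag complex of `G` is a homology sphere of dimension `n - 1`) is obtained by the following
rules. -/
inductive Rule {V : Type} [DecidableEq V] (n : ℕ) (G : SimpleGraph V) : Finset V → Prop
  /-- the link has few vertices (or satisfies the recursive condition `Few` for half the rank) -/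
  | few (S : Finset V) : Few n G ((n - S.card) / 2) S → Rule n G S
  /-- the rank is even and the links of all vertices of the link of `S` are obtained by the rules -/
  | even (S : Finset V) (k : ℕ) : S.card + 2 * k = n → (∀ v ∈ lk G S, Rule n G (insert v S)) → Rule n G S
  /-- the link of `S` is the join of the full subcomplexes on `A` and `B`, and these, which are the links of
  `S ∪ TB` and of `S ∪ TA` for the maximal simplices `TA` of `A` and `TB` of `B`, are obtained by the rules -/
  | join (S : Finset V) (A B : Set V) (TA TB : Finset V) : A ∪ B = lk G S → (∀ a ∈ A, ∀ b ∈ B, G.Adj a b) →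
      G.IsClique (TA : Set V) → (TA : Set V) ⊆ A → (∀ x ∈ A, ∃ t ∈ TA, ¬ G.Adj x t) →
      G.IsClique (TB : Set V) → (TB : Set V) ⊆ B → (∀ x ∈ B, ∃ t ∈ TB, ¬ G.Adj x t) →
      Rule n G (S ∪ TA) → Rule n G (S ∪ TB) → Rule n G S
  /-- the link of `S` (of rank at least two) has a vertex `v` whose non-neighbours in the link of `S` span a graph
  without cycles, and the links in the link of `S` of `v`, of its non-neighbours and of the edges between
  non-neighbours of `v` are obtained by the rules -/
  | tree (S : Finset V) (v : V) : S.card + 2 ≤ n → v ∈ lk G S →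
      (G.induce {x | x ∈ lk G S ∧ x ≠ v ∧ ¬ G.Adj v x}).IsAcyclic → Rule n G (insert v S) →
      (∀ c ∈ lk G S, c ≠ v → ¬ G.Adj v c → Rule n G (insert c S)) →
      (∀ c ∈ lk G S, c ≠ v → ¬ G.Adj v c → ∀ d ∈ lk G S, d ≠ v → ¬ G.Adj v d → G.Adj c d →
        Rule n G (insert d (insert c S))) → Rule n G S

/-- The structural condition: each link of odd rank `≥ 3` is a join, or has a vertex whose non-neighbours span a
graph without cycles, or has few vertices. -/
def Forest {V : Type} [DecidableEq V] (n : ℕ) (G : SimpleGraph V) : Prop :=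
  ∀ (S : Finset V) (k : ℕ), G.IsClique (S : Set V) → S.card + (2 * k + 3) = n →
    Few n G (k + 1) S ∨
    (∃ A B : Set V, A.Nonempty ∧ B.Nonempty ∧ A ∪ B = lk G S ∧ ∀ a ∈ A, ∀ b ∈ B, G.Adj a b) ∨
    ∃ v ∈ lk G S, (G.induce {x | x ∈ lk G S ∧ x ≠ v ∧ ¬ G.Adj v x}).IsAcyclic

end Pool.Agent.E8helper58.FV
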