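import Pool.Agent.E8helper58.FV.Struct
import Pool.Agent.E8helper58.FV.DefGood

/-!
# Vanishing above the middle for homology spheres obtained by the rules
-/

set_option autoImplicit false
set_option linter.unusedSectionVars false

namespace Pool.Agent.E8helper58.FV

open Pool.Agent.W907.SG Pool.Agent.W907.SM Pool.Agent.TH652.Dual

variable {V : Type} [Fintype V] [LinearOrder V] {G : SimpleGraph V} {n : ℕ}

/-- the link of `S ∪ T` for a maximal simplex `T` of a join factor of the link of `S` -/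
theorem join_lk {S : Finset V} {X Y : Set V} {T : Finset V} (hX : X ⊆ lk G S)
    (hXY : ∀ x ∈ lk G S, x ∈ X ∨ x ∈ Y) (hf : ∀ a ∈ X, ∀ b ∈ Y, G.Adj a b) (hT : (T : Set V) ⊆ Y)
    (hTm : ∀ y ∈ Y, ∃ t ∈ T, ¬ G.Adj y t) : lk G (S ∪ T) = X := by
  classical
  ext x
  constructor
  · intro hx
    rcases hXY x (fun u hu => hx u (Finset.mem_union_left _ hu)) with h | h
    · exact h
    · obtain ⟨t, ht, hn⟩ := hTm x h
      exact absurd (hx t (Finset.mem_union_right _ ht)) hn
  · intro hx u hu
    rcases Finset.mem_union.1 hu with h | h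
    · exact hX hx u h
    · exact hf x hx u (hT h)

/-- the ranks of the factors of a join -/
theorem join_rank (hS : Sph n G) {S : Finset V} (hcl : G.IsClique (S : Set V)) {A B : Set V} {TA TB : Finset V}
    (hAB : A ∪ B = lk G S) (hfull : ∀ a ∈ A, ∀ b ∈ B, G.Adj a b)
    (hTAc : G.IsClique (TA : Set V)) (hTAs : (TA : Set V) ⊆ A) (hTAm : ∀ x ∈ A, ∃ t ∈ TA, ¬ G.Adj x t)
    (hTBc : G.IsClique (TB : Set V)) (hTBs : (TB : Set V) ⊆ B) (hTBm : ∀ x ∈ B, ∃ t ∈ TB, ¬ G.Adj x t) :
    lk G (S ∪ TB) = A ∧ lk G (S ∪ TA) = B ∧ G.IsClique ((S ∪ TB : Finset V) : Set V) ∧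
      G.IsClique ((S ∪ TA : Finset V) : Set V) ∧ (S ∪ TB).card = S.card + TB.card ∧
      (S ∪ TA).card = S.card + TA.card ∧ S.card + TA.card + TB.card = n := by
  classical
  have hAS : A ⊆ lk G S := by rw [← hAB]; exact Set.subset_union_left
  have hBS : B ⊆ lk G S := by rw [← hAB]; exact Set.subset_union_right
  have hmem : ∀ x ∈ lk G S, x ∈ A ∨ x ∈ B := by
    intro x hx
    rw [← hAB] at hx
    exact hx
  have hlA : lk G (S ∪ TB) = A := join_lk hAS hmem hfull hTBs hTBm
  have hlB : lk G (S ∪ TA) = B := join_lk hBS (fun x hx => (hmem x hx).symm)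
    (fun a ha b hb => (hfull b hb a ha).symm) hTAs hTAm
  have hcB := (lk_iff hcl TB).1 ⟨hTBc, hTBs.trans hBS⟩
  have hcA := (lk_iff hcl TA).1 ⟨hTAc, hTAs.trans hAS⟩
  have hcardB := Finset.card_union_of_disjoint hcB.1
  have hcardA := Finset.card_union_of_disjoint hcA.1
  have hTAB : (TA : Set V) ⊆ lk G (S ∪ TB) := by rw [hlA]; exact hTAs
  have hcAB := (lk_iff hcB.2 TA).1 ⟨hTAc, hTAB⟩
  have hcardAB := Finset.card_union_of_disjoint hcAB.1
  have hemp : lk G (S ∪ TB ∪ TA) = ∅ := by
    rw [Set.eq_empty_iff_forall_notMem]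
    intro x hx
    have h2 : x ∈ lk G (S ∪ TB) := fun u hu => hx u (Finset.mem_union_left _ hu)
    rw [hlA] at h2
    obtain ⟨t, ht, hn⟩ := hTAm x h2
    exact hn (hx t (Finset.mem_union_right _ ht))
  have hle := no_big hS hcAB.2
  obtain ⟨q, hq⟩ := Nat.exists_eq_add_of_le' hle
  have hsz2 := size hS q _ hcAB.2 hq.symm
  rw [hemp, Set.ncard_empty] at hsz2
  exact ⟨hlA, hlB, hcB.2, hcA.2, hcardB, hcardA, by omega⟩

theorem ins {S : Finset V} (hcl : G.IsClique (S : Set V)) {u : V} (hu : u ∈ lk G S) :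
    G.IsClique ((insert u S : Finset V) : Set V) ∧ (insert u S).card = S.card + 1 :=
  ⟨clq_insert hcl hu, Finset.card_insert_of_notMem (notMem_of_lk hu)⟩

/-- vanishing above the middle for the links obtained by the rules -/
theorem rule_main (hS : Sph n G) {S : Finset V} (h : Rule n G S) : G.IsClique (S : Set V) →
    R G (n - S.card) (lk G S) := by
  classical
  induction h with
  | few S h =>
    intro hcl D hD i hi
    exact few_above hS _ S h hcl D hD i (by omega)
  | even S k hk _ ih =>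
    intro hcl
    rcases Nat.eq_zero_or_pos k with h0 | h0
    · have h1 : lk G S = ∅ := by
        rw [Set.eq_empty_iff_forall_notMem]
        intro v hv
        have h2 := no_big hS (ins hcl hv).1
        rw [(ins hcl hv).2] at h2
        omega
      rw [h1]
      exact R_empty
    · obtain ⟨m, rfl⟩ : ∃ m, k = m + 1 := ⟨k - 1, by omega⟩
      have e : n - S.card = 2 * m + 2 := by omega
      rw [e]
      refine R_loc fun v hv => ?_
      have h1 := ih v hv (ins hcl hv).1
      rw [(ins hcl hv).2] at h1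
      have e2 : n - (S.card + 1) = 2 * m + 1 := by omega
      rw [e2] at h1
      refine R_mono ?_ h1
      rintro x ⟨hx, hvx⟩
      exact lk_insert_iff.2 ⟨SimpleGraph.Adj.symm hvx, hx⟩
  | join S A B TA TB hAB hfull hTAc hTAs hTAm hTBc hTBs hTBm _ _ ihA ihB =>
    intro hcl
    obtain ⟨h1, h2, h3, h4, h5, h6, h7⟩ := join_rank hS hcl hAB hfull hTAc hTAs hTAm hTBc hTBs hTBm
    have hA := ihB h3
    have hB := ihA h4
    rw [h1] at hA
    rw [h2] at hB
    have h8 := R_join hfull hA hB
    rw [hAB] at h8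
    have e : n - (S ∪ TB).card + (n - (S ∪ TA).card) = n - S.card := by omega
    rw [e] at h8
    exact h8
  | tree S v hn hv hac _ _ _ ihv ihc ihe =>
    intro hcl
    have hac' : (G.induce (NN G S v)).IsAcyclic := hac
    obtain ⟨m', hm'⟩ := Tr_of_tree (G := G) _ (NN G S v) rfl ⟨conn_of_Cn (nn_conn hS hcl hv), hac'⟩
    obtain ⟨k, hk⟩ : ∃ k, n - S.card = k + 2 := ⟨n - S.card - 2, by omega⟩
    have hR1 : ∀ u ∈ lk G S, (u = v ∨ u ∈ NN G S v) → R G (k + 2) (lk G (insert u S)) := by
      intro u hu h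
      have h1 : R G (n - (insert u S).card) (lk G (insert u S)) := by
        rcases h with h | h
        · subst h
          exact ihv (ins hcl hu).1
        · exact ihc u hu h.2.1 h.2.2 (ins hcl hu).1
      rw [(ins hcl hu).2] at h1
      exact R_level (by omega) h1
    have key := tree k v (lk G (insert v S)) m' G (NN G S v) hm'
      (fun u hu => (lk_insert_iff.1 hu).1.symm)
      (fun c hc => ⟨hc.2.1, hc.2.2, fun h => hc.2.2 (lk_insert_iff.1 h).1.symm⟩)
      (fun u hu => by
        rw [nn_link]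
        have hu' := lk_insert_iff.1 hu
        exact nn_conn hS (ins hcl hu'.2).1 (lk_insert_iff.2 ⟨hu'.1.symm, hv⟩))
      (fun u hu u' hu' huu => by
        obtain ⟨c, hc, hcv, hn, hT⟩ := star hS hcl hv (T := {u, u'}) (by
          rw [Finset.coe_insert, Finset.coe_singleton]
          exact (SimpleGraph.isClique_pair).2 fun _ => huu) (by
          rw [Finset.coe_insert, Finset.coe_singleton]
          exact Set.insert_subset hu (Set.singleton_subset_iff.2 hu'))
        exact ⟨c, ⟨hc, hcv, hn⟩, hT u (by simp), hT u' (by simp)⟩)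
      (hR1 v hv (Or.inl rfl))
      (fun c hc => by
        refine R_mono ?_ (hR1 c hc.1 (Or.inr hc))
        rintro x ⟨hx, hcx⟩
        refine lk_insert_iff.2 ⟨SimpleGraph.Adj.symm hcx, ?_⟩
        rcases hx with h | h
        · exact (lk_insert_iff.1 h).2
        · exact h.1)
      (fun c hc c' hc' hcc => by
        have h1 : c' ∈ lk G (insert c S) := lk_insert_iff.2 ⟨hcc.symm, hc'.1⟩
        have h2 := ins (ins hcl hc.1).1 h1
        have h3 := ihe c hc.1 hc.2.1 hc.2.2 c' hc'.1 hc'.2.1 hc'.2.2 hcc h2.1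
        rw [h2.2, (ins hcl hc.1).2] at h3
        have e : n - (S.card + 1 + 1) = k := by omega
        rw [e] at h3
        refine R_mono ?_ h3
        rintro x ⟨hx, hcx, hcx'⟩
        exact lk_insert_iff.2 ⟨SimpleGraph.Adj.symm hcx', lk_insert_iff.2 ⟨SimpleGraph.Adj.symm hcx,
          (lk_insert_iff.1 hx).2⟩⟩)
    rw [hk]
    refine R_mono ?_ key
    intro x hx
    by_cases hxv : x = v
    · exact Or.inl hxv
    · by_cases h : G.Adj v x
      · exact Or.inr (Or.inl (lk_insert_iff.2 ⟨h.symm, hx⟩))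
      · exact Or.inr (Or.inr ⟨hx, hxv, h⟩)

/-- the structural condition implies that all links are obtained by the rules -/
theorem rule_of_forest (hS : Sph n G) (hF : Forest n G) : ∀ (d : ℕ) (S : Finset V), G.IsClique (S : Set V) →
    d + S.card = n → Rule n G S := by
  classical
  intro d
  induction d using Nat.strong_induction_on with
  | _ d ih =>
  intro S hcl hd
  have hsz := size hS d S hcl hd
  rcases Nat.even_or_odd' d with ⟨m, hm | hm⟩
  · refine Rule.even S m (by omega) fun v hv => ?_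
    refine ih (d - 1) ?_ (insert v S) (ins hcl hv).1 ?_
    · have h2 := no_big hS (ins hcl hv).1
      rw [(ins hcl hv).2] at h2
      omega
    · have h2 := no_big hS (ins hcl hv).1
      rw [(ins hcl hv).2] at h2 ⊢
      omega
  · rcases Nat.eq_zero_or_pos m with hm0 | hm0
    · -- rank one
      refine Rule.few S ?_
      have e : (n - S.card) / 2 = 0 := by omega
      rw [e]
      show (lk G S).ncard + S.card ≤ n + 2 ∨ (lk G S).ncard + 2 * S.card ≤ 2 * n
      left
      by_contra h2
      have h3 : 2 < (lk G S).ncard := by omega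
      obtain ⟨a, b, c, ha, hb, hc, hab, hac, hbc⟩ := (Set.two_lt_ncard_iff (Set.toFinite _)).1 h3
      exact no_three hS hcl (by omega) ha hb hc hab hac hbc
    · obtain ⟨k, rfl⟩ : ∃ k, m = k + 1 := ⟨m - 1, by omega⟩
      rcases hF S k hcl (by omega) with h | ⟨A, B, hA, hB, hAB, hfull⟩ | ⟨v, hv, hac⟩
      · refine Rule.few S ?_
        have e : (n - S.card) / 2 = k + 1 := by omega
        rw [e]
        exact h
      · obtain ⟨TA, hTAc, hTAs, hTAm⟩ := max_clique (G := G) A
        obtain ⟨TB, hTBc, hTBs, hTBm⟩ := max_clique (G := G) B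
        have hneT : ∀ (X : Set V) (T : Finset V), X.Nonempty → (∀ x ∈ X, ∃ t ∈ T, ¬ G.Adj x t) → 1 ≤ T.card := by
          rintro X T ⟨x, hx⟩ hT
          obtain ⟨t, ht, -⟩ := hT x hx
          exact Finset.card_pos.2 ⟨t, ht⟩
        have h1A := hneT A TA hA hTAm
        have h1B := hneT B TB hB hTBm
        obtain ⟨h1, h2, h3, h4, h5, h6, h7⟩ := join_rank hS hcl hAB hfull hTAc hTAs hTAm hTBc hTBs hTBm
        exact Rule.join S A B TA TB hAB hfull hTAc hTAs hTAm hTBc hTBs hTBm
          (ih TB.card (by omega) (S ∪ TA) h4 (by omega)) (ih TA.card (by omega) (S ∪ TB) h3 (by omega))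
      · have hI : ∀ u ∈ lk G S, Rule n G (insert u S) := fun u hu =>
          ih (2 * k + 2) (by omega) (insert u S) (ins hcl hu).1 (by rw [(ins hcl hu).2]; omega)
        refine Rule.tree S v (by omega) hv hac (hI v hv) (fun c hc _ _ => hI c hc) ?_
        intro c hc _ _ c' hc' _ _ hcc
        have h1 : c' ∈ lk G (insert c S) := lk_insert_iff.2 ⟨hcc.symm, hc'⟩
        have h2 := ins (ins hcl hc).1 h1
        exact ih (2 * k + 1) (by omega) _ h2.1 (by rw [h2.2, (ins hcl hc).2]; omega)

end Pool.Agent.E8helper58.FV
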