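import Pool.Agent.E8helper58.FV.Ops

/-!
# Contraction of a tree of non-neighbours
-/

set_option autoImplicit false
set_option linter.unusedSectionVars false

namespace Pool.Agent.E8helper58.FV

variable {V : Type}

/-- connected (nonempty) sets of vertices -/
def Cn (G : SimpleGraph V) (X : Set V) : Prop :=
  X.Nonempty ∧ ∀ A : Set V, A ⊆ X → A.Nonempty → A ≠ X → ∃ a ∈ A, ∃ b ∈ X, b ∉ A ∧ G.Adj a b

/-- trees with `m` edges -/
inductive Tr (G : SimpleGraph V) : ℕ → Set V → Prop
  | single (c : V) : Tr G 0 {c}
  | leaf (m : ℕ) (x y : V) (C : Set V) : y ∈ C → x ∉ C → G.Adj x y → (∀ c ∈ C, G.Adj x c → c = y) →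
      Tr G m C → Tr G (m + 1) (insert x C)

theorem Tr_congr {G H : SimpleGraph V} {m : ℕ} {C : Set V} (h : Tr G m C)
    (hc : ∀ a ∈ C, ∀ b ∈ C, (G.Adj a b ↔ H.Adj a b)) : Tr H m C := by
  induction h with
  | single c => exact Tr.single c
  | leaf m x y C hy hx hxy hu _ ih =>
    exact Tr.leaf m x y C hy hx ((hc _ (Or.inl rfl) _ (Or.inr hy)).1 hxy)
      (fun c hcC h => hu c hcC ((hc _ (Or.inl rfl) _ (Or.inr hcC)).2 h))
      (ih fun a ha b hb => hc a (Or.inr ha) b (Or.inr hb))

/-- the elements of `C` adjacent to `u` -/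
def CU (G : SimpleGraph V) (C : Set V) (u : V) : Set V := {c | c ∈ C ∧ G.Adj c u}

theorem Cn_singleton (G : SimpleGraph V) (c : V) : Cn G {c} := by
  refine ⟨⟨c, rfl⟩, fun A hA hne hA' => ?_⟩
  obtain ⟨a, ha⟩ := hne
  exfalso
  refine hA' (Set.Subset.antisymm hA ?_)
  rintro x hx
  have h1 : a = c := hA ha
  have h2 : x = c := hx
  rw [h2, ← h1]
  exact ha

theorem tree [Finite V] (n : ℕ) (v : V) (L : Set V) : ∀ (m : ℕ) (G : SimpleGraph V) (C : Set V), Tr G m C →
    (∀ u ∈ L, G.Adj v u) → (∀ c ∈ C, c ≠ v ∧ ¬ G.Adj v c ∧ c ∉ L) →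
    (∀ u ∈ L, Cn G (CU G C u)) →
    (∀ u ∈ L, ∀ u' ∈ L, G.Adj u u' → ∃ c ∈ C, G.Adj c u ∧ G.Adj c u') →
    R G (n + 2) L → (∀ c ∈ C, R G (n + 2) ((L ∪ C) ∩ G.neighborSet c)) →
    (∀ c ∈ C, ∀ c' ∈ C, G.Adj c c' → R G n (L ∩ (G.neighborSet c ∩ G.neighborSet c'))) →
    R G (n + 2) (insert v (L ∪ C)) := by
  classical
  intro m
  induction m with
  | zero =>
    intro G C hT hL hC hU hP hR hN hE
    cases hT with
    | single c =>
    have hc : ∀ u ∈ L, G.Adj c u := by
      intro u hu
      obtain ⟨⟨x, hx⟩, -⟩ := hU u hu
      have h1 : x = c := hx.1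
      rw [← h1]
      exact hx.2
    have hcc := hC c rfl
    refine R_mono ?_ (R_susp hcc.1.symm hcc.2.1 hL hc hR)
    rintro x (h | h | h)
    · exact Or.inl h
    · exact Or.inr (Or.inr h)
    · exact Or.inr (Or.inl h)
  | succ m ih =>
    intro G C hT hL hC hU hP hR hN hE
    cases hT with
    | leaf _ x y C hy hx hxy hu hT =>
    have hxC := hC x (Or.inl rfl)
    have hyC := hC y (Or.inr hy)
    have hyx : y ≠ x := hxy.ne.symm
    have hLx : ∀ u ∈ L, u ≠ x := fun u hu' e => hxC.2.2 (e ▸ hu')
    have hLy : ∀ u ∈ L, u ≠ y := fun u hu' e => hyC.2.2 (e ▸ hu')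
    have hCx : ∀ c ∈ C, c ≠ x := fun c hc e => hx (e ▸ hc)
    -- vertices of `L` adjacent to `x` but not to `y`
    have hone : ∀ u ∈ L, G.Adj x u → ¬ G.Adj y u → ∀ c ∈ insert x C, G.Adj c u → c = x := by
      intro u huL hxu hyu c hc hcu
      by_contra hcx
      obtain ⟨a, ha, b, hb, hba, hab⟩ := (hU u huL).2 {x}
        (by
          rintro _ rfl
          exact ⟨Or.inl rfl, hxu⟩)
        ⟨x, rfl⟩ (fun e => hcx (by
          have h1 : c ∈ CU G (insert x C) u := ⟨hc, hcu⟩
          rw [← e] at h1
          exact h1))
      have ha : a = x := ha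
      subst ha
      rcases hb.1 with h | h
      · exact hba h
      · have h2 := hu b h hab
        subst h2
        exact hyu hb.2
    have hone' : ∀ u ∈ L, G.Adj x u → ∀ c ∈ C, G.Adj c u → G.Adj y u := by
      intro u huL hxu c hc hcu
      by_contra h
      exact hCx c hc (hone u huL hxu h c (Or.inr hc) hcu)
    obtain ⟨G', hG'⟩ : ∃ G' : SimpleGraph V, G' = Pool.Agent.R781.VS.con G y x := ⟨_, rfl⟩
    have hadj : ∀ a b : V, G'.Adj a b ↔ a ≠ b ∧ a ≠ x ∧ b ≠ x ∧
        (G.Adj a b ∨ (a = y ∧ G.Adj x b) ∨ (b = y ∧ G.Adj x a)) := by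
      intro a b
      rw [hG']
      exact Iff.rfl
    have hgen : ∀ a b : V, a ≠ x → b ≠ x → (a = y → b ≠ y → G.Adj x b → G.Adj y b) →
        (b = y → a ≠ y → G.Adj x a → G.Adj y a) → (G.Adj a b ↔ G'.Adj a b) := by
      intro a b ha hb h1 h2
      rw [hadj]
      constructor
      · intro h
        exact ⟨h.ne, ha, hb, Or.inl h⟩
      · rintro ⟨h0, -, -, h | ⟨h, h'⟩ | ⟨h, h'⟩⟩
        · exact h
        · rw [h]
          exact h1 h (fun e => h0 (h.trans e.symm)) h'
        · rw [h]
          exact (h2 h (fun e => h0 (e.trans h.symm)) h').symm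
    have hCC : ∀ a ∈ C, ∀ b ∈ C, (G.Adj a b ↔ G'.Adj a b) := by
      intro a ha b hb
      refine hgen a b (hCx a ha) (hCx b hb) ?_ ?_
      · intro _ h2 h3
        exact absurd (hu b hb h3) h2
      · intro _ h2 h3
        exact absurd (hu a ha h3) h2
    have hLL : ∀ a ∈ L, ∀ b ∈ L, (G.Adj a b ↔ G'.Adj a b) := by
      intro a ha b hb
      exact hgen a b (hLx a ha) (hLx b hb) (fun e => absurd e (hLy a ha)) (fun e => absurd e (hLy b hb))
    have hCL : ∀ c ∈ C, ∀ u ∈ L, c ≠ y → (G.Adj c u ↔ G'.Adj c u) := by
      intro c hc u huL hcy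
      exact hgen c u (hCx c hc) (hLx u huL) (fun e => absurd e hcy) (fun e => absurd e (hLy u huL))
    have hyL : ∀ u ∈ L, (G'.Adj y u ↔ G.Adj y u ∨ G.Adj x u) := by
      intro u huL
      rw [hadj]
      constructor
      · rintro ⟨-, -, -, h | ⟨-, h⟩ | ⟨h, -⟩⟩
        · exact Or.inl h
        · exact Or.inr h
        · exact absurd h (hLy u huL)
      · intro h
        refine ⟨(hLy u huL).symm, hyx, hLx u huL, ?_⟩
        rcases h with h | h
        · exact Or.inl h
        · exact Or.inr (Or.inl ⟨rfl, h⟩)
    have hCLy : ∀ c ∈ C, ∀ u ∈ L, G.Adj c u → G'.Adj c u := by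
      intro c hc u huL h
      rw [hadj]
      exact ⟨h.ne, hCx c hc, hLx u huL, Or.inl h⟩
    -- the contracted graph
    have key : R G' (n + 2) (insert v (L ∪ C)) := by
      refine ih G' C (Tr_congr hT hCC) ?_ ?_ ?_ ?_ ?_ ?_ ?_
      · intro u huL
        rw [hadj]
        exact ⟨(hL u huL).ne, hxC.1.symm, hLx u huL, Or.inl (hL u huL)⟩
      · intro c hc
        have hcC := hC c (Or.inr hc)
        refine ⟨hcC.1, ?_, hcC.2.2⟩
        rw [hadj]
        rintro ⟨-, -, -, h | ⟨h, -⟩ | ⟨-, h⟩⟩
        · exact hcC.2.1 h
        · exact hyC.1 h.symm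
        · exact hxC.2.1 h.symm
      · intro u huL
        by_cases hxu : G.Adj x u
        · by_cases hyu : G.Adj y u
          · have hmem : ∀ c, c ∈ CU G' C u ↔ c ∈ C ∧ G.Adj c u := by
              intro c
              constructor
              · rintro ⟨h1, h2⟩
                refine ⟨h1, ?_⟩
                by_cases hcy : c = y
                · rw [hcy]; exact hyu
                · exact (hCL c h1 u huL hcy).2 h2
              · rintro ⟨h1, h2⟩
                exact ⟨h1, hCLy c h1 u huL h2⟩
            refine ⟨⟨y, (hmem y).2 ⟨hy, hyu⟩⟩, fun A hA hne hAne => ?_⟩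
            by_cases hyA : y ∈ A
            · obtain ⟨a, ha, b, hb, hbA, hab⟩ := (hU u huL).2 (insert x A)
                (by
                  rintro a (h | h)
                  · rw [h]
                    exact ⟨Or.inl rfl, hxu⟩
                  · have h1 := (hmem a).1 (hA h)
                    exact ⟨Or.inr h1.1, h1.2⟩)
                ⟨x, Or.inl rfl⟩ (fun e => hAne (Set.Subset.antisymm hA (by
                  intro c hc
                  have h1 := (hmem c).1 hc
                  have h2 : c ∈ CU G (insert x C) u := ⟨Or.inr h1.1, h1.2⟩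
                  rw [← e] at h2
                  exact h2.resolve_left (hCx c h1.1))))
              have hbx : b ≠ x := fun e => hbA (Or.inl e)
              have hbC : b ∈ C := hb.1.resolve_left hbx
              have haA : a ∈ A := by
                rcases ha with h | h
                · exfalso
                  rw [h] at hab
                  have h1 := hu b hbC hab
                  exact hbA (Or.inr (h1 ▸ hyA))
                · exact h
              exact ⟨a, haA, b, (hmem b).2 ⟨hbC, hb.2⟩, fun h => hbA (Or.inr h),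
                (hCC a ((hmem a).1 (hA haA)).1 b hbC).1 hab⟩
            · obtain ⟨a, ha, b, hb, hbA, hab⟩ := (hU u huL).2 A
                (by
                  intro a h
                  have h1 := (hmem a).1 (hA h)
                  exact ⟨Or.inr h1.1, h1.2⟩)
                hne (fun e => hyA (by
                  rw [e]
                  exact ⟨Or.inr hy, hyu⟩))
              have haC := ((hmem a).1 (hA ha)).1
              have hbx : b ≠ x := by
                rintro rfl
                have h1 := hu a haC hab.symm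
                exact hyA (h1 ▸ ha)
              have hbC : b ∈ C := hb.1.resolve_left hbx
              exact ⟨a, ha, b, (hmem b).2 ⟨hbC, hb.2⟩, hbA, (hCC a haC b hbC).1 hab⟩
          · have e : CU G' C u = {y} := by
              ext c
              constructor
              · rintro ⟨h1, h2⟩
                by_contra hcy
                have h3 := (hCL c h1 u huL hcy).2 h2
                exact hCx c h1 (hone u huL hxu hyu c (Or.inr h1) h3)
              · intro h
                have h : c = y := h
                rw [h]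
                exact ⟨hy, (hyL u huL).2 (Or.inr hxu)⟩
            rw [e]
            exact Cn_singleton G' y
        · have hmem : ∀ c, c ∈ CU G' C u ↔ c ∈ CU G (insert x C) u := by
            intro c
            constructor
            · rintro ⟨h1, h2⟩
              refine ⟨Or.inr h1, ?_⟩
              by_cases hcy : c = y
              · rw [hcy] at h2 ⊢
                exact ((hyL u huL).1 h2).resolve_right hxu
              · exact (hCL c h1 u huL hcy).2 h2
            · rintro ⟨h1, h2⟩
              have h3 : c ∈ C := by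
                rcases h1 with h | h
                · rw [h] at h2
                  exact absurd h2 hxu
                · exact h
              exact ⟨h3, hCLy c h3 u huL h2⟩
          have e : CU G' C u = CU G (insert x C) u := Set.ext hmem
          obtain ⟨h1, h2⟩ := hU u huL
          rw [← e] at h1 h2
          refine ⟨h1, fun A hA hne hA' => ?_⟩
          obtain ⟨a, ha, b, hb, hbA, hab⟩ := h2 A hA hne hA'
          exact ⟨a, ha, b, hb, hbA, (hCC a (hA ha).1 b hb.1).1 hab⟩
      · intro u huL u' huL' huu
        obtain ⟨c, hc, h1, h2⟩ := hP u huL u' huL' ((hLL u huL u' huL').2 huu)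
        rcases hc with h | h
        · rw [h] at h1 h2
          exact ⟨y, hy, (hyL u huL).2 (Or.inr h1), (hyL u' huL').2 (Or.inr h2)⟩
        · exact ⟨c, h, hCLy c h u huL h1, hCLy c h u' huL' h2⟩
      · exact R_congr hLL hR
      · intro c hc
        by_cases hcy : c = y
        · subst hcy
          have h1 : R G (n + 2) ((L ∩ G.neighborSet x) ∪ ((L ∪ C) ∩ G.neighborSet c)) := by
            refine R_glue ?_ (R_mono ?_ (hN x (Or.inl rfl))) (R_mono ?_ (hN c (Or.inr hy)))
              (R_mono ?_ (hE x (Or.inl rfl) c (Or.inr hy) hxy))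
            · rintro a ⟨haL, hax⟩ haB b ⟨hb, hbc⟩ hbA hab
              have hac : ¬ G.Adj c a := fun h => haB ⟨Or.inl haL, h⟩
              rcases hb with hb | hb
              · obtain ⟨d, hd, hda, hdb⟩ := hP a haL b hb hab
                have h1 := hone a haL hax hac d hd hda
                rw [h1] at hdb
                exact hbA ⟨hb, hdb⟩
              · exact hCx b hb (hone a haL hax hac b (Or.inr hb) hab.symm)
            · rintro a ⟨h1, h2⟩
              exact ⟨Or.inl h1, h2⟩
            · rintro a ⟨h1 | h1, h2⟩
              · exact ⟨Or.inl h1, h2⟩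
              · exact ⟨Or.inr (Or.inr h1), h2⟩
            · rintro a ⟨⟨h1, h2⟩, ⟨h3, h4⟩⟩
              exact ⟨h1, h2, h4⟩
          refine R_congr (G := G) ?_ (R_mono ?_ h1)
          · rintro a ⟨ha, hac⟩ b ⟨hb, hbc⟩
            have hac : G'.Adj c a := hac
            have hbc : G'.Adj c b := hbc
            have ha2 := (hadj c a).1 hac
            have hb2 := (hadj c b).1 hbc
            exact hgen a b ha2.2.2.1 hb2.2.2.1 (fun e => absurd e ha2.1.symm) (fun e => absurd e hb2.1.symm)
          · rintro a ⟨ha, hac⟩
            have hac : G'.Adj c a := hac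
            rcases ha with ha | ha
            · rcases (hyL a ha).1 hac with h | h
              · exact Or.inr ⟨Or.inl ha, h⟩
              · exact Or.inl ⟨ha, h⟩
            · exact Or.inr ⟨Or.inr ha, (hCC c hc a ha).2 hac⟩
        · have hsub : (L ∪ C) ∩ G'.neighborSet c ⊆ (L ∪ insert x C) ∩ G.neighborSet c := by
            rintro a ⟨ha | ha, hac⟩
            · exact ⟨Or.inl ha, (hCL c hc a ha hcy).2 hac⟩
            · exact ⟨Or.inr (Or.inr ha), (hCC c hc a ha).2 hac⟩
          refine R_congr (G := G) ?_ (R_mono hsub (hN c (Or.inr hc)))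
          have hax : ∀ a ∈ (L ∪ C) ∩ G'.neighborSet c, a ≠ x := by
            rintro a ⟨ha | ha, -⟩
            · exact hLx a ha
            · exact hCx a ha
          have hyy : ∀ a ∈ (L ∪ C) ∩ G'.neighborSet c, a ≠ y → G.Adj x a → G.Adj y a := by
            intro a ha hay hxa
            have h2 : G.Adj c a := (hsub ha).2
            rcases ha.1 with h | h
            · exact hone' a h hxa c hc h2
            · exact absurd (hu a h hxa) hay
          intro a ha b hb
          exact hgen a b (hax a ha) (hax b hb) (fun _ => hyy b hb) (fun _ => hyy a ha)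
      · intro c hc c' hc' hcc
        have hcc1 := (hCC c hc c' hc').2 hcc
        have h1 := hE c (Or.inr hc) c' (Or.inr hc') hcc1
        refine R_congr (G := G) (fun a ha b hb => hLL a ha.1 b hb.1) (R_mono ?_ h1)
        rintro a ⟨haL, hac, hac'⟩
        have hac : G'.Adj c a := hac
        have hac' : G'.Adj c' a := hac'
        refine ⟨haL, ?_, ?_⟩
        · by_cases hcy : c = y
          · have hcy' : c' ≠ y := fun e => hcc1.ne (hcy.trans e.symm)
            have h2 : G.Adj c' a := (hCL c' hc' a haL hcy').2 hac'
            rw [hcy] at hac ⊢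
            rcases (hyL a haL).1 hac with h | h
            · exact h
            · exact hone' a haL h c' hc' h2
          · exact (hCL c hc a haL hcy).2 hac
        · by_cases hcy : c' = y
          · have hcy' : c ≠ y := fun e => hcc1.ne (e.trans hcy.symm)
            have h2 : G.Adj c a := (hCL c hc a haL hcy').2 hac
            rw [hcy] at hac' ⊢
            rcases (hyL a haL).1 hac' with h | h
            · exact h
            · exact hone' a haL h c hc h2
          · exact (hCL c' hc' a haL hcy).2 hac'
    rw [hG'] at key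
    refine R_split (s := y) (t := x) (Or.inr (Or.inr (Or.inr hy))) (Or.inr (Or.inr (Or.inl rfl))) hxy.symm
      ?_ (R_mono ?_ key) (R_mono ?_ (hE y (Or.inr hy) x (Or.inl rfl) hxy.symm))
      (R_mono ?_ (hN y (Or.inr hy))) (R_mono ?_ (hN x (Or.inl rfl)))
    · intro a ha b hb hya hxa hax hxb hyb hby hab
      -- `b` is adjacent to `x` only
      have hbL : b ∈ L := by
        rcases hb with h | h | h | h
        · rw [h] at hxb
          exact absurd hxb.symm hxC.2.1
        · exact h
        · exact absurd h hxb.ne.symm
        · exact absurd (hu b h hxb) hby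
      rcases ha with h | h | h | h
      · rw [h] at hya
        exact hyC.2.1 hya.symm
      · obtain ⟨d, hd, hda, hdb⟩ := hP a h b hbL hab
        have h1 := hone b hbL hxb hyb d hd hdb
        rw [h1] at hda
        exact hxa hda
      · exact hax h
      · exact hCx a h (hone b hbL hxb hyb a (Or.inr h) hab)
    · rintro a ⟨ha, hax⟩
      rcases ha with h | h | h | h
      · exact Or.inl h
      · exact Or.inr (Or.inl h)
      · exact absurd h hax
      · exact Or.inr (Or.inr h)
    · rintro a ⟨ha, hya, hxa⟩
      have hya : G.Adj y a := hya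
      have hxa : G.Adj x a := hxa
      rcases ha with h | h | h | h
      · rw [h] at hya
        exact absurd hya.symm hyC.2.1
      · exact ⟨h, hya, hxa⟩
      · exact absurd h hxa.ne.symm
      · exact absurd (hu a h hxa) hya.ne.symm
    · rintro a ⟨ha, hya⟩
      have hya : G.Adj y a := hya
      rcases ha with h | h
      · rw [h] at hya
        exact absurd hya.symm hyC.2.1
      · exact ⟨h, hya⟩
    · rintro a ⟨ha, hya⟩
      have hya : G.Adj x a := hya
      rcases ha with h | h
      · rw [h] at hya
        exact absurd hya.symm hxC.2.1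
      · exact ⟨h, hya⟩

end Pool.Agent.E8helper58.FV
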