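import Pool.Agent.E8helper58.FV.Main
import Pool.Agent.E8helper58.FV.Tree

/-!
# The non-neighbours of a vertex of a homology sphere are connected
-/

set_option autoImplicit false
set_option linter.unusedSectionVars false

namespace Pool.Agent.E8helper58.FV

open Module Pool.Agent.W907.SG Pool.Agent.W907.SM Pool.Agent.TH652.Dual

variable {V : Type} [Fintype V] [LinearOrder V] {G : SimpleGraph V} {n : ℕ} {S : Finset V}

open Classical in
/-- the part of the chain `z` on the simplices which meet `X` -/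
noncomputable def rs (X : Set V) (z : Finset V → ℝ) : Finset V → ℝ :=
  fun T => if ∃ a ∈ T, a ∈ X then z T else 0

theorem rs_pos {X : Set V} {z : Finset V → ℝ} {T : Finset V} {a : V} (h : a ∈ T) (hX : a ∈ X) :
    rs X z T = z T := if_pos ⟨a, h, hX⟩

theorem rs_neg {X : Set V} {z : Finset V → ℝ} {T : Finset V} (h : ∀ a ∈ T, a ∉ X) :
    rs X z T = 0 := if_neg fun ⟨a, ha, haX⟩ => h a ha haX

theorem rs_mem {A X : Set V} {d : ℕ} {z : Finset V → ℝ} (hz : z ∈ KK G (triv V) A ∅ d) :
    rs X z ∈ KK G (triv V) A ∅ d := by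
  rw [mem_KK_triv] at hz ⊢
  intro T hT
  unfold rs
  split_ifs
  · exact hz T hT
  · rfl

theorem bd_rs {X L : Set V} {d : ℕ} {z : Finset V → ℝ} (hz : z ∈ ZZ G (triv V) (lk G S) ∅ (d + 1))
    (hX : ∀ x ∈ X, ∀ t ∈ lk G S, G.Adj x t → t ∉ X → t ∈ L) : bd ℝ (rs X z) ∈ ZZ G (triv V) L ∅ d := by
  have hzK := hz.1
  rw [SetLike.mem_coe, mem_KK_triv] at hzK
  refine ⟨?_, bd_bd _⟩
  rw [SetLike.mem_coe, mem_KK_triv]
  intro T hT
  by_cases hTX : ∃ a ∈ T, a ∈ X
  · have h1 := congrFun (show bd ℝ z = 0 from hz.2) T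
    rw [Pi.zero_apply] at h1
    rw [← h1, bd_apply, bd_apply]
    refine Finset.sum_congr rfl fun u _ => ?_
    obtain ⟨a, ha, haX⟩ := hTX
    rw [rs_pos (Finset.mem_insert_of_mem ha) haX]
  · rw [bd_apply]
    refine Finset.sum_eq_zero fun u hu => ?_
    by_cases hu0 : rs X z (insert u T) = 0
    · rw [hu0, smul_zero]
    · exfalso
      apply hT
      have huX : ∃ a ∈ insert u T, a ∈ X := by
        by_contra h
        exact hu0 (if_neg h)
      have hzu : z (insert u T) ≠ 0 := by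
        intro h
        apply hu0
        unfold rs
        rw [h, ite_self]
      have hcl : G.IsClique ((insert u T : Finset V) : Set V) ∧ ((insert u T : Finset V) : Set V) ⊆ lk G S ∧
          (insert u T).card = d + 1 := by
        by_contra h
        exact hzu (hzK _ h)
      obtain ⟨a, ha, haX⟩ := huX
      have hau : a = u := by
        rcases Finset.mem_insert.1 ha with h | h
        · exact h
        · exact absurd ⟨a, h, haX⟩ hTX
      rw [hau] at haX
      have huT : u ∉ T := by simpa using hu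
      have hc := hcl.2.2
      rw [Finset.card_insert_of_notMem huT] at hc
      refine ⟨hcl.1.subset (by simp), fun t ht => ?_, by omega⟩
      have htT : t ∈ T := ht
      refine hX u haX t (hcl.2.1 (Finset.mem_coe.2 (Finset.mem_insert_of_mem htT))) ?_
        (fun h => hTX ⟨t, htT, h⟩)
      exact hcl.1 (Finset.mem_coe.2 (Finset.mem_insert_self _ _))
        (Finset.mem_coe.2 (Finset.mem_insert_of_mem htT)) (fun e => huT (e ▸ htT))

/-- every vertex is in the support of the fundamental class -/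
theorem supp_all (hS : Sph n G) (hcl : G.IsClique (S : Set V)) {d : ℕ} (hd : d + S.card = n)
    {z : Finset V → ℝ} (hz : z ∈ ZZ G (triv V) (lk G S) ∅ d) (hz0 : z ≠ 0) {v : V} (hv : v ∈ lk G S) :
    ∃ T : Finset V, v ∈ T ∧ z T ≠ 0 ∧ G.IsClique (T : Set V) ∧ (T : Set V) ⊆ lk G S := by
  have h1 := Lv_ne hS d S hcl hd z hz hz0 v hv
  by_contra hno
  push Not at hno
  apply h1
  have hzK := hz.1
  rw [SetLike.mem_coe, mem_KK_triv] at hzK
  funext R
  unfold Lv
  split_ifs with h
  · rfl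
  · by_cases h2 : z (insert v R) = 0
    · rw [h2, mul_zero]
      rfl
    · exfalso
      have h3 : G.IsClique ((insert v R : Finset V) : Set V) ∧ ((insert v R : Finset V) : Set V) ⊆ lk G S ∧
          (insert v R).card = d := by
        by_contra h
        exact h2 (hzK _ h)
      exact hno (insert v R) (Finset.mem_insert_self _ _) h2 h3.1 h3.2.1

theorem nn_conn (hS : Sph n G) (hcl : G.IsClique (S : Set V)) {v : V} (hv : v ∈ lk G S) :
    Cn G (NN G S v) := by
  classical
  refine ⟨?_, fun A hA hAne hAne' => ?_⟩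
  · obtain ⟨u, hu, huv, hn⟩ := no_cone hS hcl hv
    exact ⟨u, hu, huv, hn⟩
  by_contra hno
  push Not at hno
  have hcard : S.card + 1 ≤ n := by
    have h := no_big hS (clq_insert hcl hv)
    rwa [Finset.card_insert_of_notMem (notMem_of_lk hv)] at h
  obtain ⟨d, hd⟩ := Nat.exists_eq_add_of_le' hcard
  have hd1 : (d + 1) + S.card = n := by omega
  have hdv : d + (insert v S).card = n := by
    rw [Finset.card_insert_of_notMem (notMem_of_lk hv)]
    omega
  obtain ⟨z, hz, hz0, -⟩ := top_exists hS hcl hd1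
  obtain ⟨o, ho, ho0, -⟩ := top_exists hS (clq_insert hcl hv) hdv
  have hbA : bd ℝ (rs A z) ∈ ZZ G (triv V) (lk G (insert v S)) ∅ d := by
    refine bd_rs hz ?_
    intro x hx t ht hxt htA
    refine lk_insert_iff.2 ⟨?_, ht⟩
    by_contra h
    have h1 := hA hx
    have htv : t ≠ v := by
      rintro rfl
      exact h1.2.2 hxt.symm
    exact hno x hx t ⟨ht, htv, fun h' => h h'.symm⟩ htA hxt
  have hbv : bd ℝ (rs {v} z) ∈ ZZ G (triv V) (lk G (insert v S)) ∅ d := by
    refine bd_rs hz ?_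
    intro x hx t ht hxt _
    have hx : x = v := hx
    rw [hx] at hxt
    exact lk_insert_iff.2 ⟨hxt.symm, ht⟩
  obtain ⟨r, hr⟩ := top_span hS (clq_insert hcl hv) hdv ho ho0 hbv
  obtain ⟨s, hs⟩ := top_span hS (clq_insert hcl hv) hdv ho ho0 hbA
  have hzK := hz.1
  -- simplices of the fundamental class
  obtain ⟨a, haA⟩ := hAne
  have haN := hA haA
  obtain ⟨b, hbN, hbA'⟩ : ∃ b ∈ NN G S v, b ∉ A := by
    by_contra h
    push Not at h
    exact hAne' (Set.Subset.antisymm hA h)
  obtain ⟨Ta, haT, hzTa, hTac, hTal⟩ := supp_all hS hcl hd1 hz hz0 haN.1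
  obtain ⟨Tb, hbT, hzTb, hTbc, hTbl⟩ := supp_all hS hcl hd1 hz hz0 hbN.1
  obtain ⟨Tv, hvT, hzTv, hTvc, hTvl⟩ := supp_all hS hcl hd1 hz hz0 hv
  have hvTa : v ∉ Ta := fun h =>
    haN.2.2 (hTac (Finset.mem_coe.2 h) (Finset.mem_coe.2 haT) haN.2.1.symm)
  have hvTb : v ∉ Tb := fun h =>
    hbN.2.2 (hTbc (Finset.mem_coe.2 h) (Finset.mem_coe.2 hbT) hbN.2.1.symm)
  have hATb : ∀ x ∈ Tb, x ∉ A := by
    intro x hx hxA
    by_cases e : x = b
    · exact hbA' (e ▸ hxA)
    · exact hno x hxA b hbN hbA' (hTbc (Finset.mem_coe.2 hx) (Finset.mem_coe.2 hbT) e)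
  have e1 : rs {v} z Ta = 0 := rs_neg fun x hx h => hvTa (by
    have h : x = v := h
    exact h ▸ hx)
  have e2 : rs {v} z Tb = 0 := rs_neg fun x hx h => hvTb (by
    have h : x = v := h
    exact h ▸ hx)
  have e3 : rs {v} z Tv = z Tv := rs_pos hvT rfl
  have e4 : rs A z Ta = z Ta := rs_pos haT haA
  have e5 : rs A z Tb = 0 := rs_neg hATb
  have hr0 : r ≠ 0 := by
    rintro rfl
    rw [zero_smul] at hr
    obtain ⟨t, ht⟩ := top_span hS hcl hd1 hz hz0 (⟨rs_mem hzK, hr⟩ : rs {v} z ∈ ZZ G (triv V) (lk G S) ∅ (d + 1))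
    have h1 := congrFun ht Ta
    rw [e1, Pi.smul_apply, smul_eq_mul] at h1
    have ht0 : t = 0 := by
      rcases mul_eq_zero.1 h1.symm with h | h
      · exact h
      · exact absurd h hzTa
    have h2 := congrFun ht Tv
    rw [e3, ht0, zero_smul, Pi.zero_apply] at h2
    exact hzTv h2
  have hw : rs A z - (s / r) • rs {v} z ∈ ZZ G (triv V) (lk G S) ∅ (d + 1) := by
    refine ⟨Submodule.sub_mem _ (rs_mem hzK) (Submodule.smul_mem _ _ (rs_mem hzK)), ?_⟩
    show bd ℝ (rs A z - (s / r) • rs {v} z) = 0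
    rw [map_sub, map_smul, hr, hs, smul_smul, div_mul_cancel₀ s hr0, sub_self]
  obtain ⟨t, ht⟩ := top_span hS hcl hd1 hz hz0 hw
  have h1 := congrFun ht Tb
  rw [Pi.sub_apply, Pi.smul_apply, e5, e2, smul_zero, sub_zero, Pi.smul_apply, smul_eq_mul] at h1
  have ht0 : t = 0 := by
    rcases mul_eq_zero.1 h1.symm with h | h
    · exact h
    · exact absurd h hzTb
  have h2 := congrFun ht Ta
  rw [Pi.sub_apply, Pi.smul_apply, e4, e1, smul_zero, sub_zero, ht0, zero_smul, Pi.zero_apply] at h2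
  exact hzTa h2

end Pool.Agent.E8helper58.FV
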