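import Pool.Agent.W907.SM.Defs

/-!
# Links with few vertices
-/

set_option autoImplicit false

namespace Pool.Agent.E8helper58.FV

open Pool.Agent.W907.SM

/-- `Few n G j S` is a condition on the set `lk G S` of the common neighbours of `S`, which is the vertex set of the
link of the simplex `S` in the flag complex of `G`: the link has few vertices, namely at most
`max (n + 3 j + 2 - |S|) (2 n + j - 2 |S|)`, or (if `1 ≤ j`) every simplex of the link with `j + 1` vertices has a
vertex `v` such that the link of the simplex `S ∪ {v}` satisfies the condition for `j - 1`. -/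
def Few {V : Type} [DecidableEq V] (n : ℕ) (G : SimpleGraph V) : ℕ → Finset V → Prop
  | 0, S => (lk G S).ncard + S.card ≤ n + 2 ∨ (lk G S).ncard + 2 * S.card ≤ 2 * n
  | j + 1, S => (lk G S).ncard + S.card ≤ n + 3 * (j + 1) + 2 ∨ (lk G S).ncard + 2 * S.card ≤ 2 * n + (j + 1) ∨
      ∀ T : Finset V, G.IsClique (T : Set V) → (T : Set V) ⊆ lk G S → T.card = j + 2 →
        ∃ v ∈ T, Few n G j (insert v S)

end Pool.Agent.E8helper58.FV
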