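import Pool.Agent.E8helper58.FV.Sphere
import Pool.Agent.E8helper58.FV.Def
import Pool.Agent.R781.VS.QSplit

/-!
# Vanishing above the middle for flag homology spheres with few vertices
-/

set_option autoImplicit false
set_option linter.unusedSectionVars false

namespace Pool.Agent.E8helper58.FV

open Pool.Agent.W907.SG Pool.Agent.W907.SM Pool.Agent.TH652.Dual
open Pool.Agent.TH652.Above (Q Q_loc lv_set lv_sub lv_univ lv_img lv_cone)
open Pool.Agent.R781.VS

/-- vanishing in the degrees `> k / 2` for the full subcomplexes spanned by the subsets of `A` -/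
def R {V : Type} (G : SimpleGraph V) (k : ℕ) (A : Set V) : Prop :=
  ∀ D : Set V, D ⊆ A → ∀ i : ℕ, k < 2 * i → LV (G.induce D) i

theorem Q_of_R {V : Type} [Finite V] {G : SimpleGraph V} {k : ℕ} {A : Set V} (h : R G k A) :
    Q k (G.induce A) :=
  ⟨inferInstance, fun X i hi => (lv_sub G A X i).2 (h _ (by rintro _ ⟨x, _, rfl⟩; exact x.2) i hi)⟩

theorem R_of_Q {V : Type} {G : SimpleGraph V} {k : ℕ} {A : Set V} (h : Q k (G.induce A)) : R G k A :=
  fun D hD i hi => Q_restrict h D hD i hi

theorem R_ind {V : Type} {G : SimpleGraph V} {k : ℕ} {D : Set V} {X : Set ↥D}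
    (h : R G k (Subtype.val '' X)) : R (G.induce D) k X :=
  fun E hE i hi => (lv_sub G D E i).2 (h _ (Set.image_mono hE) i hi)

theorem R_mono {V : Type} {G : SimpleGraph V} {k : ℕ} {A B : Set V} (hAB : A ⊆ B) (h : R G k B) :
    R G k A := fun D hD => h D (hD.trans hAB)

theorem Q_mono {V : Type} {G : SimpleGraph V} {k l : ℕ} (hkl : k ≤ l) (h : Q k G) : Q l G :=
  ⟨h.1, fun A i hi => h.2 A i (by omega)⟩

/-- suspensions -/
theorem R_susp {V : Type} [Finite V] {G : SimpleGraph V} {k : ℕ} {A : Set V} {v w : V} (hvw : v ≠ w)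
    (hn : ¬ G.Adj v w) (hv : ∀ a ∈ A, G.Adj v a) (hw : ∀ a ∈ A, G.Adj w a) (h : R G k A) :
    R G k (insert v (insert w A)) := by
  classical
  intro D hD i hi
  by_cases h1 : v ∈ D
  · by_cases h2 : w ∈ D
    · refine lsusp ↥D (G.induce D) ⟨v, h1⟩ ⟨w, h2⟩ i (fun e => hvw (congrArg Subtype.val e)) hn ?_
      rintro ⟨u, hu⟩ hu1 hu2
      have hu3 : u ∈ A := by
        rcases hD hu with e | e | e
        · exact absurd (Subtype.ext e) hu1
        · exact absurd (Subtype.ext e) hu2
        · exact e
      exact ⟨(hv u hu3).symm, (hw u hu3).symm⟩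
    · have hsub : D \ {v} ⊆ A := by
        rintro x ⟨hx, hxv⟩
        rcases hD hx with e | e | e
        · exact absurd e hxv
        · exact absurd (e ▸ hx) h2
        · exact e
      have e : D = insert v (D \ {v}) := by
        rw [Set.insert_sdiff_singleton, Set.insert_eq_of_mem h1]
      rw [e]
      exact lv_cone G _ v (fun h => h.2 rfl) (fun a ha => hv a (hsub ha)) i (h _ hsub i hi)
  · by_cases h2 : w ∈ D
    · have hsub : D \ {w} ⊆ A := by
        rintro x ⟨hx, hxv⟩
        rcases hD hx with e | e | e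
        · exact absurd (e ▸ hx) h1
        · exact absurd e hxv
        · exact e
      have e : D = insert w (D \ {w}) := by
        rw [Set.insert_sdiff_singleton, Set.insert_eq_of_mem h2]
      rw [e]
      exact lv_cone G _ w (fun h => h.2 rfl) (fun a ha => hw a (hsub ha)) i (h _ hsub i hi)
    · refine h D ?_ i hi
      intro x hx
      rcases hD hx with e | e | e
      · exact absurd (e ▸ hx) h1
      · exact absurd (e ▸ hx) h2
      · exact e

variable {V : Type} [Fintype V] [LinearOrder V] {G : SimpleGraph V} {n : ℕ}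

/-- the non-neighbours of `u` in the link of `S` -/
def NN (G : SimpleGraph V) (S : Finset V) (u : V) : Set V := {x | x ∈ lk G S ∧ x ≠ u ∧ ¬ G.Adj u x}

theorem count {S : Finset V} {u : V} (hu : u ∈ lk G S) :
    (lk G S).ncard = 1 + (NN G S u).ncard + (lk G (insert u S)).ncard := by
  classical
  have h1 : lk G S = insert u (NN G S u ∪ lk G (insert u S)) := by
    ext x
    constructor
    · intro hx
      by_cases h : x = u
      · exact Or.inl h
      · by_cases h2 : G.Adj u x
        · exact Or.inr (Or.inr (lk_insert_iff.2 ⟨h2.symm, hx⟩))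
        · exact Or.inr (Or.inl ⟨hx, h, h2⟩)
    · rintro (rfl | h | h)
      · exact hu
      · exact h.1
      · exact (lk_insert_iff.1 h).2
  have h2 : u ∉ NN G S u ∪ lk G (insert u S) := by
    rintro (h | h)
    · exact h.2.1 rfl
    · exact G.irrefl (lk_insert_iff.1 h).1
  have h3 : Disjoint (NN G S u) (lk G (insert u S)) := by
    rw [Set.disjoint_left]
    intro x hx hx'
    exact hx.2.2 (lk_insert_iff.1 hx').1.symm
  rw [h1, Set.ncard_insert_of_notMem h2, Set.ncard_union_eq h3]
  have h4 : insert u (NN G S u ∪ lk G (insert u S)) = lk G S := h1.symm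
  omega

/-- the main induction -/
theorem main (hS : Sph n G) : ∀ (k : ℕ) (S : Finset V), G.IsClique (S : Set V) → (lk G S).ncard = k →
    ∀ j : ℕ, k + S.card ≤ n + 3 * j + 2 ∨ k + 2 * S.card ≤ 2 * n + j → R G (2 * j) (lk G S) := by
  classical
  intro k
  induction k using Nat.strong_induction_on with
  | _ k ih =>
  intro S hcl hk j hj
  rcases Set.eq_empty_or_nonempty (lk G S) with h0 | hne
  · intro D hD i hi
    have : IsEmpty ↥D := ⟨fun x => by
      have h1 := hD x.2
      rw [h0] at h1
      exact h1⟩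
    exact lempty _ _ i (by omega)
  -- the links of the vertices
  have hcard : ∀ u ∈ lk G S, (insert u S).card = S.card + 1 := fun u hu =>
    Finset.card_insert_of_notMem (notMem_of_lk hu)
  have ihv : ∀ u ∈ lk G S, ∀ j' : ℕ, k + S.card ≤ n + 3 * j' + 2 + (NN G S u).ncard ∨
      k + 2 * S.card + 1 ≤ 2 * n + j' + (NN G S u).ncard → R G (2 * j') (lk G (insert u S)) := by
    intro u hu j' hj'
    have h1 := count hu
    refine ih _ (by omega) (insert u S) (clq_insert hcl hu) rfl j' ?_
    rw [hcard u hu]
    omega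
  have hsz : ∀ u ∈ lk G S, 2 * n ≤ 2 * S.card + 2 + (lk G (insert u S)).ncard := by
    intro u hu
    have h1 := no_big hS (clq_insert hcl hu)
    obtain ⟨d, hd⟩ := Nat.exists_eq_add_of_le' h1
    have h2 := size hS d (insert u S) (clq_insert hcl hu) hd.symm
    rw [hcard u hu] at hd h1
    omega
  have hNN : ∀ u ∈ lk G S, 1 ≤ (NN G S u).ncard := by
    intro u hu
    obtain ⟨x, hx, hxu, hn⟩ := no_cone hS hcl hu
    exact (Set.ncard_pos (Set.toFinite _)).2 ⟨x, hx, hxu, hn⟩
  by_cases ha : ∃ v ∈ lk G S, (NN G S v).ncard = 1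
  · -- a suspension
    obtain ⟨v, hv, hv1⟩ := ha
    obtain ⟨w, hw⟩ := Set.ncard_eq_one.1 hv1
    have hwN : w ∈ NN G S v := by rw [hw]; rfl
    have hwa : ∀ a ∈ lk G (insert v S), G.Adj w a := by
      intro a ha
      obtain ⟨u, hu, huv, hun, huT⟩ := star hS hcl hv (T := {a}) (by simp) (by simpa using ha)
      have h1 : u ∈ NN G S v := ⟨hu, huv, hun⟩
      rw [hw, Set.mem_singleton_iff] at h1
      subst h1
      exact huT a (by simp)
    have h1 : R G (2 * j) (insert v (insert w (lk G (insert v S)))) := by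
      refine R_susp hwN.2.1.symm hwN.2.2 (fun a ha => (lk_insert_iff.1 ha).1.symm) hwa (ihv v hv j ?_)
      omega
    refine R_mono ?_ h1
    intro x hx
    by_cases hxv : x = v
    · exact Or.inl hxv
    · by_cases hxw : G.Adj v x
      · exact Or.inr (Or.inr (lk_insert_iff.2 ⟨hxw.symm, hx⟩))
      · have h2 : x ∈ NN G S v := ⟨hx, hxv, hxw⟩
        rw [hw] at h2
        exact Or.inr (Or.inl h2)
  push Not at ha
  have hNN2 : ∀ u ∈ lk G S, 2 ≤ (NN G S u).ncard := by
    intro u hu
    have h1 := hNN u hu
    have h2 := ha u hu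
    omega
  by_cases hb : ∃ v ∈ lk G S, (NN G S v).ncard = 2
  · -- contraction of an edge
    obtain ⟨v, hv, hv2⟩ := hb
    obtain ⟨w, w', hww, hN⟩ := Set.ncard_eq_two.1 hv2
    have hwN : w ∈ NN G S v := by rw [hN]; exact Or.inl rfl
    have hwN' : w' ∈ NN G S v := by rw [hN]; exact Or.inr rfl
    obtain ⟨hw, hwv, hvw⟩ := hwN
    obtain ⟨hw', hwv', hvw'⟩ := hwN'
    have h6 : ∀ x ∈ lk G S, x ≠ v → ¬ G.Adj v x → x = w ∨ x = w' := by
      intro x hx hxv hxn
      have h1 : x ∈ NN G S v := ⟨hx, hxv, hxn⟩
      rw [hN] at h1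
      exact h1
    have hadj : G.Adj w w' := adj_two hS hcl hv hw hw' hwv hwv' hww hvw hvw' h6
    have hstar : ∀ T : Finset V, G.IsClique (T : Set V) → (T : Set V) ⊆ lk G (insert v S) →
        (∀ t ∈ T, G.Adj w t) ∨ (∀ t ∈ T, G.Adj w' t) := by
      intro T hT hTs
      obtain ⟨u, hu, huv, hun, huT⟩ := star hS hcl hv hT hTs
      rcases h6 u hu huv hun with rfl | rfl
      · exact Or.inl huT
      · exact Or.inr huT
    have hcov : ∀ x ∈ lk G S, x ≠ v → x ≠ w → x ≠ w' → x ∈ lk G (insert v S) := by
      intro x hx h1 h2 h3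
      refine lk_insert_iff.2 ⟨?_, hx⟩
      by_contra h
      rcases h6 x hx h1 (fun h' => h h'.symm) with e | e
      · exact h2 e
      · exact h3 e
    -- further non-neighbours
    have hvNw : v ∈ NN G S w := ⟨hv, hwv.symm, fun h => hvw h.symm⟩
    have hvNw' : v ∈ NN G S w' := ⟨hv, hwv'.symm, fun h => hvw' h.symm⟩
    obtain ⟨u, hu, huv⟩ := Set.exists_ne_of_one_lt_ncard (hNN2 w hw) v
    obtain ⟨u', hu', huv'⟩ := Set.exists_ne_of_one_lt_ncard (hNN2 w' hw') v
    have huw' : u ≠ w' := by
      rintro rfl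
      exact hu.2.2 hadj
    have hu'w : u' ≠ w := by
      rintro rfl
      exact hu'.2.2 hadj.symm
    have huu : u ≠ u' := by
      rintro rfl
      rcases hstar {u} (by simp) (by simpa using hcov u hu.1 huv hu.2.1 huw') with h | h
      · exact hu.2.2 (h u (by simp))
      · exact hu'.2.2 (h u (by simp))
    -- the link of the edge
    have hw'i : w' ∈ lk G (insert w S) := lk_insert_iff.2 ⟨hadj.symm, hw'⟩
    have hEcl := clq_insert (clq_insert hcl hw) hw'i
    have hEcard : (insert w' (insert w S)).card = S.card + 2 := by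
      rw [Finset.card_insert_of_notMem (notMem_of_lk hw'i), hcard w hw]
    have hEsub : insert v (insert w (insert w' (insert u (insert u' (lk G (insert w' (insert w S))))))) ⊆
        lk G S := by
      refine Set.insert_subset hv (Set.insert_subset hw (Set.insert_subset hw' (Set.insert_subset hu.1
        (Set.insert_subset hu'.1 ?_))))
      intro x hx
      exact (lk_insert_iff.1 (lk_insert_iff.1 hx).2).2
    have hEnc : (lk G (insert w' (insert w S))).ncard + 5 ≤ k := by
      have h1 := Set.ncard_le_ncard hEsub (Set.toFinite _)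
      have hE : ∀ x ∈ lk G (insert w' (insert w S)), G.Adj x w' ∧ G.Adj x w := fun x hx =>
        ⟨(lk_insert_iff.1 hx).1, (lk_insert_iff.1 (lk_insert_iff.1 hx).2).1⟩
      rw [Set.ncard_insert_of_notMem, Set.ncard_insert_of_notMem, Set.ncard_insert_of_notMem,
        Set.ncard_insert_of_notMem, Set.ncard_insert_of_notMem] at h1
      · omega
      · exact fun h => hu'.2.2 (hE _ h).1.symm
      · rintro (h | h)
        · exact huu h
        · exact hu.2.2 (hE _ h).2.symm
      · rintro (h | h | h)
        · exact huw' h.symm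
        · exact hu'.2.1 h.symm
        · exact G.irrefl (hE _ h).1
      · rintro (h | h | h | h)
        · exact hww h
        · exact hu.2.1 h.symm
        · exact hu'w h.symm
        · exact G.irrefl (hE _ h).2
      · rintro (h | h | h | h | h)
        · exact hwv h.symm
        · exact hwv' h.symm
        · exact huv h.symm
        · exact huv' h.symm
        · exact hvw (hE _ h).2
    -- `j` is positive
    have hn2 : S.card + 2 ≤ n := by
      have h1 := no_big hS hEcl
      rwa [hEcard] at h1
    obtain ⟨j', rfl⟩ : ∃ j', j = j' + 1 := by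
      refine ⟨j - 1, ?_⟩
      by_contra h
      have hj0 : j = 0 := by omega
      have h1 := count hv
      have h2 := hsz v hv
      omega
    -- the hypotheses of the splitting theorem
    have hsq : NoSq (G.induce (lk G S)) ⟨w, hw⟩ ⟨w', hw'⟩ := by
      rintro ⟨x, hx⟩ ⟨y, hy⟩ h1 h2 h3 h4 h5 h7 h8
      have h1 : G.Adj w x := h1
      have h2 : ¬ G.Adj w' x := h2
      have h3 : x ≠ w' := fun e => h3 (Subtype.ext e)
      have h4 : G.Adj w' y := h4
      have h5 : ¬ G.Adj w y := h5
      have h7 : y ≠ w := fun e => h7 (Subtype.ext e)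
      have h8 : G.Adj x y := h8
      have hxv : x ≠ v := by
        rintro rfl
        exact hvw h1.symm
      have hyv : y ≠ v := by
        rintro rfl
        exact hvw' h4.symm
      have hx2 := hcov x hx hxv h1.ne.symm h3
      have hy2 := hcov y hy hyv h7 h4.ne.symm
      have hcl2 : G.IsClique (({x, y} : Finset V) : Set V) := by
        rw [Finset.coe_insert, Finset.coe_singleton]
        exact (SimpleGraph.isClique_pair).2 fun _ => h8
      rcases hstar {x, y} hcl2 (by
        rw [Finset.coe_insert, Finset.coe_singleton]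
        exact Set.insert_subset hx2 (Set.singleton_subset_iff.2 hy2)) with h | h
      · exact h5 (h y (by simp))
      · exact h2 (h x (by simp))
    have hcon : R (con (G.induce (lk G S)) ⟨w, hw⟩ ⟨w', hw'⟩) (2 * j' + 2) {⟨w', hw'⟩}ᶜ := by
      have hIv := ihv v hv (j' + 1) (by omega)
      have hsub : ({⟨w', hw'⟩}ᶜ : Set ↥(lk G S)) ⊆
          insert ⟨v, hv⟩ (insert ⟨w, hw⟩ {x | x.1 ∈ lk G (insert v S)}) := by
        rintro ⟨x, hx⟩ hxw'
        have hxw' : x ≠ w' := fun e => hxw' (Subtype.ext e)
        by_cases e1 : x = v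
        · exact Or.inl (Subtype.ext e1)
        · by_cases e2 : x = w
          · exact Or.inr (Or.inl (Subtype.ext e2))
          · exact Or.inr (Or.inr (hcov x hx e1 e2 hxw'))
      refine R_mono hsub (R_susp ?_ ?_ ?_ ?_ ?_)
      · exact fun e => hwv (congrArg Subtype.val e).symm
      · rintro ⟨-, -, -, h | ⟨h, -⟩ | ⟨-, h⟩⟩
        · exact hvw h
        · exact hwv (congrArg Subtype.val h).symm
        · exact hvw' (show G.Adj w' v from h).symm
      · rintro ⟨a, ha⟩ hal
        have hal : a ∈ lk G (insert v S) := hal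
        have h1 := (lk_insert_iff.1 hal).1
        refine ⟨fun e => h1.ne (congrArg Subtype.val e).symm, fun e => hwv' (congrArg Subtype.val e).symm,
          fun e => ?_, Or.inl h1.symm⟩
        have e : a = w' := congrArg Subtype.val e
        subst e
        exact hvw' h1.symm
      · rintro ⟨a, ha⟩ hal
        have hal : a ∈ lk G (insert v S) := hal
        have h1 := (lk_insert_iff.1 hal).1
        have ha1 : a ≠ w := by
          rintro rfl
          exact hvw h1.symm
        have ha2 : a ≠ w' := by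
          rintro rfl
          exact hvw' h1.symm
        refine ⟨fun e => ha1 (congrArg Subtype.val e).symm, fun e => hww (congrArg Subtype.val e),
          fun e => ha2 (congrArg Subtype.val e), ?_⟩
        rcases hstar {a} (by simp) (by simpa using hal) with h | h
        · exact Or.inl (h a (by simp))
        · exact Or.inr (Or.inl ⟨rfl, h a (by simp)⟩)
      · intro D hD i hi
        have e : (con (G.induce (lk G S)) ⟨w, hw⟩ ⟨w', hw'⟩).induce D = (G.induce (lk G S)).induce D := by
          have hnot : ∀ x ∈ D, x ≠ ⟨w, hw⟩ ∧ x ≠ ⟨w', hw'⟩ := by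
            intro x hx
            have h1 : G.Adj x.1 v := (lk_insert_iff.1 (hD hx)).1
            constructor
            · rintro rfl
              exact hvw h1.symm
            · rintro rfl
              exact hvw' h1.symm
          ext x y
          exact con_adj_iff' (hnot x.1 x.2).1 (hnot x.1 x.2).2 (hnot y.1 y.2).1 (hnot y.1 y.2).2
        rw [e]
        refine R_ind (R_mono ?_ hIv) D hD i hi
        rintro _ ⟨x, hx, rfl⟩
        exact hx
    have hlk : ∀ z (hz : z ∈ lk G S),
        Subtype.val '' ((G.induce (lk G S)).neighborSet ⟨z, hz⟩) ⊆ lk G (insert z S) := by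
      rintro z hz _ ⟨x, hx, rfl⟩
      have hx : G.Adj z x.1 := hx
      exact lk_insert_iff.2 ⟨hx.symm, x.2⟩
    have hres : Q (2 * j' + 2) (G.induce (lk G S)) := by
      refine Q_split (n := 2 * j') (G.induce (lk G S)) ⟨w, hw⟩ ⟨w', hw'⟩ hadj hsq (Q_of_R hcon) ?_ ?_ ?_
      · refine Q_of_R (R_ind (R_mono ?_ (ih _ (by omega) (insert w' (insert w S)) hEcl rfl j' (by
          rw [hEcard]; omega))))
        rintro _ ⟨x, ⟨hx1, hx2⟩, rfl⟩
        have hx1 : G.Adj w x.1 := hx1
        have hx2 : G.Adj w' x.1 := hx2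
        exact lk_insert_iff.2 ⟨hx2.symm, lk_insert_iff.2 ⟨hx1.symm, x.2⟩⟩
      · exact Q_of_R (R_ind (R_mono (hlk w hw) (ihv w hw (j' + 1) (by
          have := hNN2 w hw
          omega))))
      · exact Q_of_R (R_ind (R_mono (hlk w' hw') (ihv w' hw' (j' + 1) (by
          have := hNN2 w' hw'
          omega))))
    exact R_of_Q hres
  -- all vertices have at least three non-neighbours
  push Not at hb
  have hNN3 : ∀ u ∈ lk G S, 3 ≤ (NN G S u).ncard := by
    intro u hu
    have h1 := hNN2 u hu
    have h2 := hb u hu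
    omega
  obtain ⟨v, hv⟩ := hne
  obtain ⟨j', rfl⟩ : ∃ j', j = j' + 1 := by
    refine ⟨j - 1, ?_⟩
    by_contra h
    have hj0 : j = 0 := by omega
    have h1 := count hv
    have h2 := hsz v hv
    have h3 := hNN3 v hv
    have h4 := no_big hS (clq_insert hcl hv)
    rw [hcard v hv] at h4
    omega
  refine R_of_Q (Q_loc (m := j') (G.induce (lk G S)) ∅ ?_ ?_)
  · intro T _ hT
    have h1 : T = ∅ := by
      rw [← Finset.coe_eq_empty]
      exact Set.subset_empty_iff.1 hT
    rw [h1]
    simp
  · rintro ⟨u, hu⟩ -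
    refine Q_mono (Nat.le_succ _) (Q_of_R (R_ind (R_mono ?_ (ihv u hu j' ?_))))
    · rintro _ ⟨x, hx, rfl⟩
      have hx : G.Adj u x.1 := hx
      exact lk_insert_iff.2 ⟨hx.symm, x.2⟩
    · have h1 := hNN3 u hu
      omega

theorem few_above (hS : Sph n G) : ∀ (j : ℕ) (S : Finset V), Few n G j S → G.IsClique (S : Set V) →
    R G (2 * j) (lk G S) := by
  classical
  intro j
  induction j with
  | zero =>
    intro S h hcl
    have h : (lk G S).ncard + S.card ≤ n + 2 ∨ (lk G S).ncard + 2 * S.card ≤ 2 * n := h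
    exact main hS _ S hcl rfl 0 (by omega)
  | succ j ih =>
    intro S h hcl
    rcases h with h | h | h
    · exact main hS _ S hcl rfl (j + 1) (Or.inl h)
    · exact main hS _ S hcl rfl (j + 1) (Or.inr h)
    set B : Set ↥(lk G S) := {v | ¬ R G (2 * j) (lk G (insert v.1 S))} with hB
    refine R_of_Q (Q_loc (m := j) (G.induce (lk G S)) B ?_ ?_)
    · intro T hT hTB
      by_contra hc
      push Not at hc
      obtain ⟨T', hT', hc'⟩ := Finset.exists_subset_card_eq (Nat.succ_le_of_lt hc)
      obtain ⟨v, hv, hv'⟩ := h (T'.map ⟨Subtype.val, Subtype.val_injective⟩) (by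
        intro a ha b hb hab
        rw [Finset.mem_coe, Finset.mem_map] at ha hb
        obtain ⟨x, hx, rfl⟩ := ha
        obtain ⟨y, hy, rfl⟩ := hb
        exact hT (hT' hx) (hT' hy) fun e => hab (by rw [e])) (by
        intro a ha
        rw [Finset.mem_coe, Finset.mem_map] at ha
        obtain ⟨x, hx, rfl⟩ := ha
        exact x.2) (by rw [Finset.card_map]; exact hc')
      rw [Finset.mem_map] at hv
      obtain ⟨x, hx, rfl⟩ := hv
      have hx3 : x ∈ B := hTB (hT' hx)
      exact hx3 (ih _ hv' (clq_insert hcl x.2))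
    · rintro ⟨u, hu⟩ hub
      have h1 : R G (2 * j) (lk G (insert u S)) := by
        by_contra h2
        exact hub h2
      refine Q_mono (Nat.le_succ _) (Q_of_R (R_ind (R_mono ?_ h1)))
      rintro _ ⟨x, hx, rfl⟩
      have hx : G.Adj u x.1 := hx
      exact lk_insert_iff.2 ⟨hx.symm, x.2⟩

end Pool.Agent.E8helper58.FV
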