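import Pool.Agent.E8helper58.FV.Main
import Pool.Agent.TH652.Dual7

/-!
# Relative forms of the operations
-/

set_option autoImplicit false
set_option linter.unusedSectionVars false

namespace Pool.Agent.E8helper58.FV

open Pool.Agent.W907.SG Pool.Agent.W907.SM
open Pool.Agent.TH652.Above (Q Q_loc Q_glue lv_set lv_sub lv_univ lv_img lv_cone)
open Pool.Agent.TH652.Join (join ljoin)
open Pool.Agent.R781.VS

variable {V : Type} {G : SimpleGraph V}

/-- joins -/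
theorem R_join [Finite V] {m n : ℕ} {A B : Set V} (hAB : ∀ a ∈ A, ∀ b ∈ B, G.Adj a b) (h1 : R G m A)
    (h2 : R G n B) : R G (m + n) (A ∪ B) := by
  classical
  intro D hD i hi
  have h3 : LV (join (G.induce (D ∩ A)) (G.induce (D ∩ B))) i := by
    refine ljoin _ _ i fun p q hpq => ?_
    by_cases hp : m < 2 * p
    · exact Or.inl (h1 _ Set.inter_subset_right p hp)
    · exact Or.inr (h2 _ Set.inter_subset_right q (by omega))
  rw [← lv_univ] at h3
  have h4 := (lv_img (G := G) (fun x : ↥(D ∩ A) ⊕ ↥(D ∩ B) => match x with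
    | Sum.inl a => a.1
    | Sum.inr b => b.1) Set.univ ?_ ?_ i).1 h3
  · refine lv_set ?_ h4
    ext x
    simp only [Set.mem_image, Set.mem_univ, true_and]
    constructor
    · intro hx
      rcases hD hx with h | h
      · exact ⟨Sum.inl ⟨x, hx, h⟩, rfl⟩
      · exact ⟨Sum.inr ⟨x, hx, h⟩, rfl⟩
    · rintro ⟨y | y, rfl⟩
      · exact y.2.1
      · exact y.2.1
  · rintro (a | a) _ (b | b) _ hab
    · exact congrArg Sum.inl (Subtype.ext hab)
    · have e : a.1 = b.1 := hab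
      have h := hAB a.1 a.2.2 b.1 b.2.2
      rw [e] at h
      exact absurd h G.irrefl
    · have e : a.1 = b.1 := hab
      have h := hAB b.1 b.2.2 a.1 a.2.2
      rw [e] at h
      exact absurd h G.irrefl
    · exact congrArg Sum.inr (Subtype.ext hab)
  · rintro (a | a) _ (b | b) _
    · exact Iff.rfl
    · exact iff_of_true (hAB a.1 a.2.2 b.1 b.2.2) trivial
    · exact iff_of_true (hAB b.1 b.2.2 a.1 a.2.2).symm trivial
    · exact Iff.rfl

/-- vertex splitting -/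
theorem R_split [Finite V] {n : ℕ} {W : Set V} {s t : V} (hs : s ∈ W) (ht : t ∈ W) (hst : G.Adj s t)
    (hsq : ∀ x ∈ W, ∀ y ∈ W, G.Adj s x → ¬ G.Adj t x → x ≠ t → G.Adj t y → ¬ G.Adj s y → y ≠ s →
      ¬ G.Adj x y)
    (h1 : R (con G s t) (n + 2) (W \ {t})) (h2 : R G n (W ∩ (G.neighborSet s ∩ G.neighborSet t)))
    (h3 : R G (n + 2) (W ∩ G.neighborSet s)) (h4 : R G (n + 2) (W ∩ G.neighborSet t)) :
    R G (n + 2) W := by
  classical
  refine R_of_Q (Q_split (G.induce W) ⟨s, hs⟩ ⟨t, ht⟩ hst ?_ ?_ ?_ ?_ ?_)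
  · intro x y k1 k2 k3 k4 k5 k6
    exact hsq x.1 x.2 y.1 y.2 k1 k2 (fun e => k3 (Subtype.ext e)) k4 k5 (fun e => k6 (Subtype.ext e))
  · have hcon : con (G.induce W) ⟨s, hs⟩ ⟨t, ht⟩ = (con G s t).induce W := by
      ext x y
      simp only [Pool.Agent.R781.VS.con, SimpleGraph.comap_adj, Function.Embedding.subtype_apply, Subtype.ext_iff, ne_eq]
    rw [hcon]
    refine Q_of_R (R_ind (R_mono ?_ h1))
    rintro _ ⟨x, hx, rfl⟩
    exact ⟨x.2, fun e => hx (Subtype.ext e)⟩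
  · refine Q_of_R (R_ind (R_mono ?_ h2))
    rintro _ ⟨x, ⟨hx1, hx2⟩, rfl⟩
    exact ⟨x.2, hx1, hx2⟩
  · refine Q_of_R (R_ind (R_mono ?_ h3))
    rintro _ ⟨x, hx, rfl⟩
    exact ⟨x.2, hx⟩
  · refine Q_of_R (R_ind (R_mono ?_ h4))
    rintro _ ⟨x, hx, rfl⟩
    exact ⟨x.2, hx⟩

/-- gluing -/
theorem R_glue [Finite V] {n : ℕ} {A B : Set V} (hno : ∀ a ∈ A, a ∉ B → ∀ b ∈ B, b ∉ A → ¬ G.Adj a b)
    (h1 : R G (n + 2) A) (h2 : R G (n + 2) B) (h3 : R G n (A ∩ B)) : R G (n + 2) (A ∪ B) := by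
  classical
  refine R_of_Q (Q_glue (G.induce (A ∪ B)) {x | x.1 ∈ A} {x | x.1 ∈ B} ?_ ?_ ?_ ?_ ?_)
  · ext x
    exact iff_of_true x.2 trivial
  · intro a ha haB b hb hbA
    exact hno a.1 ha haB b.1 hb hbA
  · refine Q_of_R (R_ind (R_mono ?_ h1))
    rintro _ ⟨x, hx, rfl⟩
    exact hx
  · refine Q_of_R (R_ind (R_mono ?_ h2))
    rintro _ ⟨x, hx, rfl⟩
    exact hx
  · refine Q_of_R (R_ind (R_mono ?_ h3))
    rintro _ ⟨x, hx, rfl⟩
    exact hx

/-- the local-to-global rule in even degree -/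
theorem R_loc [Finite V] {m : ℕ} {W : Set V} (h : ∀ v ∈ W, R G (2 * m + 1) (W ∩ G.neighborSet v)) :
    R G (2 * m + 2) W := by
  classical
  refine R_of_Q (Q_loc (m := m) (G.induce W) ∅ ?_ ?_)
  · intro T _ hT
    have h1 : T = ∅ := by
      rw [← Finset.coe_eq_empty]
      exact Set.subset_empty_iff.1 hT
    rw [h1]
    simp
  · rintro ⟨u, hu⟩ -
    refine Q_of_R (R_ind (R_mono ?_ (h u hu)))
    rintro _ ⟨x, hx, rfl⟩
    exact ⟨x.2, hx⟩

theorem R_level {k l : ℕ} {A : Set V} (hkl : k ≤ l) (h : R G k A) : R G l A :=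
  fun D hD i hi => h D hD i (by omega)

theorem R_congr {H : SimpleGraph V} {k : ℕ} {A : Set V} (hc : ∀ x ∈ A, ∀ y ∈ A, (G.Adj x y ↔ H.Adj x y))
    (h : R G k A) : R H k A := by
  intro D hD i hi
  have e : H.induce D = G.induce D := by
    ext x y
    exact (hc x.1 (hD x.2) y.1 (hD y.2)).symm
  rw [e]
  exact h D hD i hi

theorem R_empty {k : ℕ} : R G k ∅ := by
  intro D hD i hi
  have : IsEmpty ↥D := ⟨fun x => hD x.2⟩
  exact lempty _ _ i (by omega)

end Pool.Agent.E8helper58.FV
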