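import Pool.Agent.E8helper58.FV.Conn

/-!
# Homology spheres whose links have vertices with few non-neighbours
-/

set_option autoImplicit false
set_option linter.unusedSectionVars false

namespace Pool.Agent.E8helper58.FV

open Pool.Agent.W907.SG Pool.Agent.W907.SM Pool.Agent.TH652.Dual

/-- connected sets are connected -/
theorem conn_of_Cn {V : Type} {G : SimpleGraph V} {C : Set V} (h : Cn G C) : (G.induce C).Connected := by
  classical
  obtain ⟨⟨c, hc⟩, h2⟩ := h
  obtain ⟨A, hA⟩ : ∃ A : Set V, A = {x | ∃ hx : x ∈ C, (G.induce C).Reachable ⟨c, hc⟩ ⟨x, hx⟩} := ⟨_, rfl⟩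
  have hcA : c ∈ A := by
    rw [hA]
    exact ⟨hc, SimpleGraph.Reachable.refl _⟩
  have hAC : A = C := by
    by_contra hne
    obtain ⟨a, ha, b, hb, hbA, hab⟩ := h2 A (by
      rw [hA]
      rintro x ⟨hx, -⟩
      exact hx) ⟨c, hcA⟩ hne
    apply hbA
    rw [hA] at ha ⊢
    obtain ⟨haC, ha⟩ := ha
    have h3 : (G.induce C).Adj ⟨a, haC⟩ ⟨b, hb⟩ := hab
    exact ⟨hb, ha.trans h3.reachable⟩
  have hall : ∀ x : ↥C, (G.induce C).Reachable ⟨c, hc⟩ x := by
    rintro ⟨x, hx⟩
    have h3 : x ∈ A := by rw [hAC]; exact hx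
    rw [hA] at h3
    exact h3.2
  exact (SimpleGraph.connected_iff _).2 ⟨fun x y => (hall x).symm.trans (hall y), ⟨⟨c, hc⟩⟩⟩

/-- finite trees are built by adding leaves -/
theorem Tr_of_tree {V : Type} [Finite V] {G : SimpleGraph V} : ∀ (k : ℕ) (C : Set V), C.ncard = k →
    (G.induce C).IsTree → ∃ m, Tr G m C := by
  classical
  intro k
  induction k with
  | zero =>
    intro C hk hT
    rw [Set.ncard_eq_zero (Set.toFinite _)] at hk
    obtain ⟨⟨x, hx⟩⟩ := hT.connected.nonempty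
    rw [hk] at hx
    exact absurd hx (Set.notMem_empty x)
  | succ k ih =>
    intro C hk hT
    by_cases hN : Nontrivial ↥C
    · letI : Fintype ↥C := Fintype.ofFinite _
      obtain ⟨⟨x, hx⟩, hdeg⟩ := hT.exists_vert_degree_one_of_nontrivial
      obtain ⟨⟨y, hy⟩, hxy, huniq⟩ := (SimpleGraph.degree_eq_one_iff_existsUnique_adj).1 hdeg
      have hxy' : G.Adj x y := hxy
      have h1 := hT.connected.induce_compl_singleton_of_degree_eq_one hdeg
      have h2 := hT.isAcyclic.induce ({(⟨x, hx⟩ : ↥C)}ᶜ)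
      have e := Clo.iso_of (G.induce C) G ({(⟨x, hx⟩ : ↥C)}ᶜ) (C \ {x}) Subtype.val
        (fun a ha => ⟨a.2, fun e => ha (Subtype.ext e)⟩) (fun _ _ _ _ h => Subtype.ext h)
        (fun b hb => ⟨⟨b, hb.1⟩, fun e => hb.2 (congrArg Subtype.val e), rfl⟩) (fun _ _ _ _ => Iff.rfl)
      obtain ⟨m, hm⟩ := ih (C \ {x}) (by
        have h3 := Set.ncard_sdiff_singleton_add_one hx (Set.toFinite _)
        omega) ((SimpleGraph.Iso.isTree_iff e.some).1 ⟨h1, h2⟩)
      refine ⟨m + 1, ?_⟩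
      have h4 : C = insert x (C \ {x}) := by
        rw [Set.insert_sdiff_singleton, Set.insert_eq_of_mem hx]
      rw [h4]
      refine Tr.leaf m x y (C \ {x}) ⟨hy, fun e => hxy'.ne e.symm⟩ (fun h => h.2 rfl) hxy' ?_ hm
      intro c hc hxc
      exact congrArg Subtype.val (huniq ⟨c, hc.1⟩ hxc)
    · rw [not_nontrivial_iff_subsingleton] at hN
      obtain ⟨⟨x, hx⟩⟩ := hT.connected.nonempty
      have h1 : C = {x} := by
        ext z
        constructor
        · intro hz
          exact congrArg Subtype.val (hN.elim (⟨z, hz⟩ : ↥C) ⟨x, hx⟩)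
        · intro hz
          rw [hz]
          exact hx
      rw [h1]
      exact ⟨0, Tr.single x⟩

variable {V : Type} [Fintype V] [LinearOrder V] {G : SimpleGraph V} {n : ℕ}

/-- a maximal clique in `B` -/
theorem max_clique (B : Set V) : ∃ T : Finset V, G.IsClique (T : Set V) ∧ (T : Set V) ⊆ B ∧
    ∀ x ∈ B, ∃ t ∈ T, ¬ G.Adj x t := by
  classical
  obtain ⟨T, hT, hmax⟩ := Set.Finite.exists_maximalFor Finset.card
    {T : Finset V | G.IsClique (T : Set V) ∧ (T : Set V) ⊆ B} (Set.toFinite _) ⟨∅, by simp, by simp⟩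
  refine ⟨T, hT.1, hT.2, fun x hx => ?_⟩
  by_contra h
  push Not at h
  have hxT : x ∉ T := fun h' => G.irrefl (h x h')
  have h1 := hmax (j := insert x T) ⟨by
      rw [Finset.coe_insert]
      exact hT.1.insert fun u hu _ => h u hu, by
      rw [Finset.coe_insert]
      exact Set.insert_subset hx hT.2⟩ (by
      rw [Finset.card_insert_of_notMem hxT]; omega)
  rw [Finset.card_insert_of_notMem hxT] at h1
  omega

theorem nn_link {S : Finset V} {v u : V} :
    CU G (NN G S v) u = NN G (insert u S) v := by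
  ext c
  constructor
  · rintro ⟨⟨h1, h2, h3⟩, h4⟩
    exact ⟨lk_insert_iff.2 ⟨h4, h1⟩, h2, h3⟩
  · rintro ⟨h1, h2, h3⟩
    exact ⟨⟨(lk_insert_iff.1 h1).2, h2, h3⟩, (lk_insert_iff.1 h1).1⟩

end Pool.Agent.E8helper58.FV
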